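import Pool.Agent.TH737.CP.Root

/-!
# Common preperiodic points: numerical bounds
-/

set_option autoImplicit false

namespace Pool.Agent.TH737.CP

open Finset

universe u

/-- a difference of distinct `d`-th roots of unity determines the first one up to `q` values -/
def RootQ (d q : ℕ) : Prop :=
  ∀ (L : Type u) [Field L] [CharZero L], ∀ a b : L, a ^ d = 1 → b ^ d = 1 → a ≠ b →
    ∀ T : Finset L, (∀ a' ∈ T, ∃ b', a' ^ d = 1 ∧ b' ^ d = 1 ∧ a - b = a' - b') → T.card ≤ q

lemma rootQ_two (d : ℕ) (hd : d ≠ 0) : RootQ.{u} d 2 := by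
  classical
  intro L _ _ a b ha hb hab T hT
  have h1 : T ⊆ {a, -b} := by
    intro a' ha'
    obtain ⟨b', h1, h2, h3⟩ := hT a' ha'
    rw [mem_insert, mem_singleton]
    exact root_sub d hd ha hb h1 h2 hab h3
  exact (card_le_card h1).trans card_le_two

lemma rootQ_one_odd (d : ℕ) (hd : Odd d) : RootQ.{u} d 1 := by
  classical
  intro L _ _ a b ha hb hab T hT
  have h1 : T ⊆ {a} := by
    intro a' ha'
    obtain ⟨b', h1, h2, h3⟩ := hT a' ha'
    rw [mem_singleton]
    rcases root_sub d (by rintro rfl; simp at hd) ha hb h1 h2 hab h3 with h | h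
    · exact h
    · exfalso
      rw [h, hd.neg_pow, hb] at h1
      norm_num at h1
  exact (card_le_card h1).trans (card_singleton a).le

lemma rootQ_one_two : RootQ.{u} 2 1 := by
  classical
  intro L _ _ a b ha hb hab T hT
  have h1 : T ⊆ {a} := by
    intro a' ha'
    obtain ⟨b', h1, h2, h3⟩ := hT a' ha'
    rw [mem_singleton]
    rcases root_sub 2 (by norm_num) ha hb h1 h2 hab h3 with h | h
    · exact h
    · rw [h]
      have h4 : (a - b) * (a + b) = 0 := by linear_combination ha - hb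
      rcases mul_eq_zero.1 h4 with h5 | h5
      · exact absurd (sub_eq_zero.1 h5) hab
      · linear_combination -h5
  exact (card_le_card h1).trans (card_singleton a).le

/-- the numerical consequences -/
theorem final_bound (d : ℕ) (hd : 2 ≤ d) (N : ℕ)
    (H : ∀ q : ℕ, 1 ≤ q → q ≤ d → RootQ.{u} d q → ∀ m : ℕ, 1 ≤ m →
      (N : ℝ) * ((1 - 1 / (d : ℝ)) * (1 / q - 1 / d) - d * (1 / (d : ℝ)) ^ m / q) ≤
        ((d : ℝ) - 1) * m - 1) :
    (Odd d → N ≤ 2 * d + 9) ∧ (Even d → N ≤ 4 * d + 35) ∧ (d = 2 → N ≤ 21) := by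
  have hd0 : (0 : ℝ) < d := by exact_mod_cast (by omega : 0 < d)
  have hN0 : (0 : ℝ) ≤ N := Nat.cast_nonneg N
  have h2 : d = 2 → N ≤ 21 := by
    rintro rfl
    have h := H 1 le_rfl (by norm_num) rootQ_one_two 5 (by norm_num)
    norm_num at h
    have h3 : (N : ℝ) < 22 := by linarith
    have h4 : N < 22 := by exact_mod_cast h3
    omega
  have hodd : Odd d → N ≤ 2 * d + 9 := by
    intro ho
    have hq := rootQ_one_odd.{u} d ho
    have h3d : 3 ≤ d := by
      rcases ho with ⟨k, hk⟩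
      omega
    rcases Nat.lt_or_ge d 4 with h4 | h4
    · have h5 : d = 3 := by omega
      subst h5
      have h := H 1 le_rfl (by norm_num) hq 3 (by norm_num)
      norm_num at h
      have h3 : (N : ℝ) ≤ 15 := by linarith
      exact_mod_cast h3
    · have h := H 1 le_rfl (by omega) hq 2 (by norm_num)
      have h4' : (4 : ℝ) ≤ d := by exact_mod_cast h4
      have h5 : (N : ℝ) * ((d : ℝ) ^ 2 - 3 * d + 1) ≤ (2 * d - 3) * (d : ℝ) ^ 2 := by
        have e : (N : ℝ) * ((d : ℝ) ^ 2 - 3 * d + 1) =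
            (N : ℝ) * ((1 - 1 / (d : ℝ)) * (1 / ((1 : ℕ) : ℝ) - 1 / d) -
              d * (1 / (d : ℝ)) ^ 2 / ((1 : ℕ) : ℝ)) * (d : ℝ) ^ 2 := by
          push_cast
          field_simp
          ring
        rw [e]
        refine mul_le_mul_of_nonneg_right (h.trans (le_of_eq ?_)) (by positivity)
        push_cast
        ring
      have h5d : (5 : ℝ) ≤ d := by
        rcases ho with ⟨k, hk⟩
        exact_mod_cast (by omega : 5 ≤ d)
      have h6 : 0 < (d : ℝ) ^ 2 - 3 * d + 1 := by nlinarith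
      have h7 : (2 * (d : ℝ) - 3) * (d : ℝ) ^ 2 < (2 * d + 6) * ((d : ℝ) ^ 2 - 3 * d + 1) := by
        nlinarith
      have h8 : (N : ℝ) < 2 * d + 6 := lt_of_mul_lt_mul_right (h5.trans_lt h7) h6.le
      have h9 : N < 2 * d + 6 := by exact_mod_cast h8
      omega
  refine ⟨hodd, fun he => ?_, h2⟩
  · rcases Nat.lt_or_ge d 3 with h3 | h3
    · have h4 : d = 2 := by omega
      have := h2 h4
      omega
    have hq := rootQ_two.{u} d (by omega)
    rcases Nat.lt_or_ge d 5 with h4 | h4
    · have h5 : d = 4 := by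
        rcases he with ⟨k, hk⟩
        omega
      subst h5
      have h := H 2 (by norm_num) (by norm_num) hq 3 (by norm_num)
      norm_num at h
      have h3 : (N : ℝ) < 52 := by linarith
      have h3' : N < 52 := by exact_mod_cast h3
      omega
    · have h4' : (6 : ℝ) ≤ d := by
        rcases he with ⟨k, hk⟩
        exact_mod_cast (by omega : 6 ≤ d)
      have h := H 2 (by norm_num) (by omega) hq 2 (by norm_num)
      have h5 : (N : ℝ) * ((d : ℝ) ^ 2 - 4 * d + 2) ≤ 2 * (2 * d - 3) * (d : ℝ) ^ 2 := by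
        have e : (N : ℝ) * ((d : ℝ) ^ 2 - 4 * d + 2) =
            (N : ℝ) * ((1 - 1 / (d : ℝ)) * (1 / ((2 : ℕ) : ℝ) - 1 / d) -
              d * (1 / (d : ℝ)) ^ 2 / ((2 : ℕ) : ℝ)) * (2 * (d : ℝ) ^ 2) := by
          push_cast
          field_simp
          ring
        rw [e]
        have h6 := mul_le_mul_of_nonneg_right h (by positivity : 0 ≤ 2 * (d : ℝ) ^ 2)
        refine h6.trans (le_of_eq ?_)
        push_cast
        ring
      have h6 : 0 < (d : ℝ) ^ 2 - 4 * d + 2 := by nlinarith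
      have h7 : 2 * (2 * (d : ℝ) - 3) * (d : ℝ) ^ 2 < (4 * d + 23) * ((d : ℝ) ^ 2 - 4 * d + 2) := by
        nlinarith
      have h8 : (N : ℝ) < 4 * d + 23 := lt_of_mul_lt_mul_right (h5.trans_lt h7) h6.le
      have h9 : N < 4 * d + 23 := by exact_mod_cast h8
      omega

end Pool.Agent.TH737.CP
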