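import Pool.Agent.TH737.CP.Glo

/-!
# Common preperiodic points: complex parameters
-/

set_option autoImplicit false

namespace Pool.Agent.TH737.CP

open Finset Polynomial

universe u v

/-- the iterates as polynomials -/
noncomputable def itP {E : Type*} [Field E] (P : E[X]) (c : E) : ℕ → E[X]
  | 0 => X
  | n + 1 => P.comp (itP P c n) + C c

lemma itP_deg {E : Type*} [Field E] {d : ℕ} (P : E[X]) (hP : P.natDegree = d) (c : E) (n : ℕ) :
    (itP P c n).natDegree = d ^ n := by
  induction n with
  | zero => simp [itP]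
  | succ n ih =>
    rw [itP, natDegree_add_C, natDegree_comp, ih, hP, pow_succ, mul_comm]

lemma itP_eval {E M : Type*} [Field E] [Field M] [Algebra E M] (P : E[X]) (c : E) (n : ℕ)
    (s : M) : aeval s (itP P c n) = (F (P.map (algebraMap E M)) (algebraMap E M c))^[n] s := by
  induction n with
  | zero => simp [itP]
  | succ n ih =>
    rw [itP, map_add, aeval_comp, ih, aeval_C, Function.iterate_succ_apply']
    unfold F
    rw [eval_map_algebraMap]

/-- preperiodic points are algebraic -/
lemma pre_alg {E M : Type*} [Field E] [Field M] [Algebra E M] {d : ℕ} (hd : 2 ≤ d) (P : E[X])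
    (hP : P.natDegree = d) (c : E) (s : M)
    (h : Pre (P.map (algebraMap E M)) (algebraMap E M c) s) : IsAlgebraic E s := by
  have h' : (Set.range fun n : ℕ =>
    (F (P.map (algebraMap E M)) (algebraMap E M c))^[n] s).Finite := h
  have hni : ¬ Function.Injective fun n : ℕ =>
      (F (P.map (algebraMap E M)) (algebraMap E M c))^[n] s := by
    intro hinj
    exact Set.infinite_range_of_injective hinj h'
  unfold Function.Injective at hni
  push Not at hni
  obtain ⟨a, b, hab, hne⟩ := hni
  refine ⟨itP P c a - itP P c b, ?_, ?_⟩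
  · intro h0
    have h1 := congrArg natDegree (sub_eq_zero.1 h0)
    rw [itP_deg P hP, itP_deg P hP] at h1
    exact hne (Nat.pow_right_injective hd h1)
  · rw [map_sub, itP_eval, itP_eval, sub_eq_zero]
    exact hab

lemma Pre.of_map {K M : Type*} [Field K] [Field M] (φ : K →+* M) {P : K[X]} {c x : K}
    (h : Pre (P.map φ) (φ c) (φ x)) : Pre P c x := by
  have h' : (Set.range fun n : ℕ => (F (P.map φ) (φ c))^[n] (φ x)).Finite := h
  refine Set.Finite.subset (h'.preimage (φ.injective.injOn)) ?_
  rintro _ ⟨n, rfl⟩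
  exact ⟨n, F_map φ P c x n⟩

/-- the bound, for parameters one of which is transcendental -/
theorem main_k {k : Type v} {M : Type u} [Field k] [Field M] [CharZero M] [Algebra k M]
    {d q : ℕ} (hd : 2 ≤ d) (hq1 : 1 ≤ q) (hqd : q ≤ d)
    (hq : ∀ (L : Type u) [Field L] [CharZero L], ∀ a b : L, a ^ d = 1 → b ^ d = 1 → a ≠ b →
      ∀ T : Finset L, (∀ a' ∈ T, ∃ b', a' ^ d = 1 ∧ b' ^ d = 1 ∧ a - b = a' - b') → T.card ≤ q)
    (P : k[X]) (hP : P.natDegree = d)
    (c c' : M) (hc : Transcendental k c) (hc' : IsAlgebraic (IntermediateField.adjoin k {c}) c')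
    (hne : c ≠ c') (S : Finset M) (hSne : S.Nonempty)
    (hS : ∀ x ∈ S, Pre (P.map (algebraMap k M)) c x ∧ Pre (P.map (algebraMap k M)) c' x)
    (m : ℕ) (hm : 1 ≤ m) :
    (S.card : ℝ) * ((1 - 1 / (d : ℝ)) * (1 / q - 1 / d) - d * (1 / (d : ℝ)) ^ m / q) ≤
      ((d : ℝ) - 1) * m - 1 := by
  classical
  set gens : Set M := ({c, c'} : Set M) ∪ (S : Set M) with hgens
  have hfin : gens.Finite := by
    rw [hgens]
    exact (Set.toFinite _).union S.finite_toSet
  let K := IntermediateField.adjoin k gens
  have hcK : c ∈ K := IntermediateField.subset_adjoin k gens (by rw [hgens]; simp)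
  have hcK' : c' ∈ K := IntermediateField.subset_adjoin k gens (by rw [hgens]; simp)
  have hSK : ∀ s ∈ S, s ∈ K := fun s hs =>
    IntermediateField.subset_adjoin k gens (by rw [hgens]; simp [hs])
  let c₁ : K := ⟨c, hcK⟩
  let c₂ : K := ⟨c', hcK'⟩
  have hchar : CharZero K := (algebraMap K M).charZero
  have hFG : (⊤ : IntermediateField k K).FG :=
    IntermediateField.fg_top_iff.2 (IntermediateField.essFiniteType_iff.2
      (IntermediateField.fg_adjoin_of_finite hfin))
  have htr : Transcendental k c₁ := by
    intro h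
    have h1 : IsAlgebraic k (algebraMap K M c₁) := h.algebraMap
    exact hc h1
  set E : IntermediateField k K := IntermediateField.adjoin k {c₁} with hE
  have hEm : E.map K.val = IntermediateField.adjoin k {c} := by
    rw [hE, IntermediateField.adjoin_map, Set.image_singleton]
    rfl
  have hcE : c ∈ E.map K.val := by
    rw [hEm]
    exact IntermediateField.mem_adjoin_simple_self k c
  rw [← hEm] at hc'
  have hint : ∀ x ∈ gens, IsIntegral (E.map K.val) x := by
    intro x hx
    rw [← isAlgebraic_iff_isIntegral]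
    rw [hgens] at hx
    rcases hx with hx | hx
    · rcases hx with hx | hx
      · rw [hx]
        exact isAlgebraic_algebraMap (⟨c, hcE⟩ : E.map K.val)
      · rw [Set.mem_singleton_iff.1 hx]
        exact hc'
    · refine pre_alg hd (P.map (algebraMap k (E.map K.val)))
        (by rw [natDegree_map_eq_of_injective (algebraMap k (E.map K.val)).injective, hP])
        (⟨c, hcE⟩ : E.map K.val) x ?_
      rw [Polynomial.map_map, ← IsScalarTower.algebraMap_eq]
      exact (hS x hx).1
  have hAlg : Algebra.IsAlgebraic (E.map K.val) (IntermediateField.adjoin (E.map K.val) gens) :=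
    IntermediateField.isAlgebraic_adjoin hint
  have hle : K ≤ (IntermediateField.adjoin (E.map K.val) gens).restrictScalars k := by
    refine IntermediateField.adjoin_le_iff.2 ?_
    exact IntermediateField.subset_adjoin (E.map K.val) gens
  have hx : ∃ x : K, Transcendental k x ∧ Algebra.IsAlgebraic (IntermediateField.adjoin k {x}) K := by
    refine ⟨c₁, htr, ⟨fun y => ?_⟩⟩
    have h1 : (y : M) ∈ IntermediateField.adjoin (E.map K.val) gens := hle y.2
    have h2 : IsAlgebraic (E.map K.val) (y : M) := by
      have h3 := hAlg.isAlgebraic (⟨(y : M), h1⟩ : IntermediateField.adjoin (E.map K.val) gens)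
      exact h3.algebraMap
    exact IsAlgebraic.of_ringHom_of_comp_eq (S := E.map K.val) (B := M)
      (IntermediateField.equivMap E K.val) (algebraMap K M) h2
      (IntermediateField.equivMap E K.val).surjective (algebraMap K M).injective (by
        ext z
        rfl)
  obtain ⟨Q⟩ := Pool.Agent.TH450.FG.exists_PF k K hFG hx
  let SK : Finset K := S.attach.image fun s => (⟨s.1, hSK s.1 s.2⟩ : K)
  have hcard : SK.card = S.card := by
    rw [card_image_of_injective, card_attach]
    intro a b hab
    exact Subtype.ext (congrArg (fun z : K => (z : M)) hab)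
  have hPm : (P.map (algebraMap k K)).map (algebraMap K M) = P.map (algebraMap k M) := by
    rw [Polynomial.map_map, ← IsScalarTower.algebraMap_eq]
  have hSK' : ∀ x ∈ SK, Pre (P.map (algebraMap k K)) c₁ x ∧ Pre (P.map (algebraMap k K)) c₂ x := by
    intro x hx
    obtain ⟨s, -, rfl⟩ := mem_image.1 hx
    refine ⟨Pre.of_map (algebraMap K M) ?_, Pre.of_map (algebraMap K M) ?_⟩
    · rw [hPm]; exact (hS s.1 s.2).1
    · rw [hPm]; exact (hS s.1 s.2).2
  haveI : CharZero (AlgebraicClosure K) :=
    charZero_of_injective_algebraMap (algebraMap K (AlgebraicClosure K)).injective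
  have := glob_cp Q hd hq1 hqd (hq (AlgebraicClosure K)) P hP c₁ c₂
    (fun h => hne (congrArg (fun z : K => (z : M)) h)) (fun h => htr h.1) SK
    (by rw [← card_pos, hcard]; exact card_pos.2 hSne) hSK' m hm
  rwa [hcard] at this

/-- the bound for parameters which are not both algebraic over `k` -/
theorem main_M {k : Type v} {M : Type u} [Field k] [Field M] [CharZero M] [Algebra k M]
    {d q : ℕ} (hd : 2 ≤ d) (hq1 : 1 ≤ q) (hqd : q ≤ d)
    (hq : ∀ (L : Type u) [Field L] [CharZero L], ∀ a b : L, a ^ d = 1 → b ^ d = 1 → a ≠ b →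
      ∀ T : Finset L, (∀ a' ∈ T, ∃ b', a' ^ d = 1 ∧ b' ^ d = 1 ∧ a - b = a' - b') → T.card ≤ q)
    (P : k[X]) (hP : P.natDegree = d)
    (c c' : M) (halg : ¬ (IsAlgebraic k c ∧ IsAlgebraic k c'))
    (hne : c ≠ c') (S : Finset M) (hSne : S.Nonempty)
    (hS : ∀ x ∈ S, Pre (P.map (algebraMap k M)) c x ∧ Pre (P.map (algebraMap k M)) c' x)
    (m : ℕ) (hm : 1 ≤ m) :
    (S.card : ℝ) * ((1 - 1 / (d : ℝ)) * (1 / q - 1 / d) - d * (1 / (d : ℝ)) ^ m / q) ≤
      ((d : ℝ) - 1) * m - 1 := by
  have key : ∀ c c' : M, Transcendental k c → c ≠ c' →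
      (∀ x ∈ S, Pre (P.map (algebraMap k M)) c x ∧ Pre (P.map (algebraMap k M)) c' x) →
      (S.card : ℝ) * ((1 - 1 / (d : ℝ)) * (1 / q - 1 / d) - d * (1 / (d : ℝ)) ^ m / q) ≤
      ((d : ℝ) - 1) * m - 1 := by
    intro c c' hc hne hS
    by_cases hB : IsAlgebraic (IntermediateField.adjoin k {c'}) c
    · by_cases hA : IsAlgebraic k c'
      · exfalso
        apply hc
        haveI : Algebra.IsAlgebraic k (IntermediateField.adjoin k {c'}) :=
          IntermediateField.isAlgebraic_adjoin_simple hA.isIntegral
        exact hB.restrictScalars k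
      · exact main_k hd hq1 hqd hq P hP c' c hA hB hne.symm S hSne (fun x hx => (hS x hx).symm)
          m hm
    · have hPm : (P.map (algebraMap k (IntermediateField.adjoin k {c'}))).map
          (algebraMap (IntermediateField.adjoin k {c'}) M) = P.map (algebraMap k M) := by
        rw [Polynomial.map_map, ← IsScalarTower.algebraMap_eq]
      refine main_k (k := IntermediateField.adjoin k {c'}) hd hq1 hqd hq
        (P.map (algebraMap k (IntermediateField.adjoin k {c'})))
        (by rw [natDegree_map_eq_of_injective (algebraMap k _).injective, hP])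
        c c' hB ?_ hne S hSne (by rw [hPm]; exact hS) m hm
      have h1 : c' ∈ IntermediateField.adjoin k {c'} := IntermediateField.mem_adjoin_simple_self k c'
      exact isAlgebraic_algebraMap (algebraMap (IntermediateField.adjoin k {c'})
        (IntermediateField.adjoin (IntermediateField.adjoin k {c'}) {c}) ⟨c', h1⟩)
  by_cases hc : IsAlgebraic k c
  · exact key c' c (fun h => halg ⟨hc, h⟩) hne.symm fun x hx => (hS x hx).symm
  · exact key c c' hc hne hS

end Pool.Agent.TH737.CP
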