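import Pool.Agent.TH737.CP.Sep

/-!
# Common preperiodic points: the energy at one place
-/

set_option autoImplicit false

namespace Pool.Agent.TH737.CP

open Finset Polynomial Pool.Agent.TH737.FE Pool.Agent.TH737.HEN

open scoped Classical in
/-- the first labels -/
noncomputable def A {L : Type*} [Field L] [CharZero L] [IsAlgClosed L] (w : AbsoluteValue L ℝ)
    (d : ℕ) (ρ : L) (P : L[X]) (c : L) (j : ℕ) (x : L) : ℕ → L :=
  fun i => if i < j then lab w d ρ ((F P c)^[i] x) else 0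

variable {L : Type*} [Field L] [CharZero L] [IsAlgClosed L] {w : AbsoluteValue L ℝ}

lemma A_iff (d : ℕ) (ρ : L) (P : L[X]) (c : L) (j : ℕ) (x y : L) : A w d ρ P c j x = A w d ρ P c j y ↔
    ∀ i < j, lab w d ρ ((F P c)^[i] x) = lab w d ρ ((F P c)^[i] y) := by
  constructor
  · intro h i hi
    have := congrFun h i
    simpa only [A, if_pos hi] using this
  · intro h
    funext i
    by_cases hi : i < j
    · simp only [A, if_pos hi]; exact h i hi
    · simp only [A, if_neg hi]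

lemma A_succ_iff (d : ℕ) (ρ : L) (P : L[X]) (c : L) (j : ℕ) (x y : L) :
    A w d ρ P c (j + 1) x = A w d ρ P c (j + 1) y ↔
      lab w d ρ x = lab w d ρ y ∧ A w d ρ P c j (F P c x) = A w d ρ P c j (F P c y) := by
  rw [A_iff, A_iff]
  constructor
  · intro h
    refine ⟨h 0 (by omega), fun i hi => ?_⟩
    have := h (i + 1) (by omega)
    simpa only [Function.iterate_succ_apply] using this
  · rintro ⟨h1, h2⟩ i hi
    rcases i with _ | i
    · exact h1
    · simp only [Function.iterate_succ_apply]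
      exact h2 i (by omega)

open scoped Classical in
lemma log_le (hw : IsNonarchimedean w)
    (hQ : ∀ x : L, IsAlgebraic ℚ x → x ≠ 0 → w x = 1) {d : ℕ} (hd : 2 ≤ d) {P : L[X]}
    (hP : GoodP w d P) {c ρ : L} (hρ : P.leadingCoeff * ρ ^ d = -c) (hc : 1 < w c) (m : ℕ) : ∀ x y : L, Pre P c x → Pre P c y → x ≠ y →
      Real.log (w (x - y)) ≤ Real.log (w ρ) * (1 - ((d : ℝ) - 1) * ∑ j ∈ range m,
        (if A w d ρ P c (j + 1) x = A w d ρ P c (j + 1) y then (1 : ℝ) else 0)) := by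
  have hR := root_gt hP hρ hc
  have base : ∀ x y : L, Pre P c x → Pre P c y → x ≠ y →
      Real.log (w (x - y)) ≤ Real.log (w ρ) := by
    intro x y hx hy hxy
    refine Real.log_le_log (w.pos (sub_ne_zero.2 hxy)) ?_
    exact wsub_le' hw (pre_abs hw hd hP hρ hc hx).le (pre_abs hw hd hP hρ hc hy).le
  induction m with
  | zero =>
    intro x y hx hy hxy
    simpa using base x y hx hy hxy
  | succ m ih =>
    intro x y hx hy hxy
    by_cases hl : lab w d ρ x = lab w d ρ y
    · have l1 := (pre_lab hw hd hP hρ hc hx).2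
      have l2 := (pre_lab hw hd hP hρ hc hy).2
      rw [← hl] at l2
      have h1 : w (x - y) < w y := by
        have := wsub_lt hw l1 l2
        rw [sub_sub_sub_cancel_right] at this
        rwa [pre_abs hw hd hP hρ hc hy]
      have h2 := near_pow_sub hw hQ hd hP (by rw [pre_abs hw hd hP hρ hc hy]; exact hR) h1
      have e : P.eval x - P.eval y = F P c x - F P c y := by unfold F; ring
      rw [e, pre_abs hw hd hP hρ hc hy] at h2
      have hpos : 0 < w (x - y) := w.pos (sub_ne_zero.2 hxy)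
      have hR0 : 0 < w ρ := by linarith
      have hne : F P c x ≠ F P c y := by
        intro h3
        rw [h3, sub_self, map_zero] at h2
        have : 0 < w (x - y) * w ρ ^ (d - 1) := by positivity
        linarith
      have h3 := ih _ _ hx.next hy.next hne
      rw [h2, Real.log_mul hpos.ne' (by positivity), Real.log_pow,
        Nat.cast_sub (by omega : 1 ≤ d), Nat.cast_one] at h3
      rw [sum_range_succ']
      have e1 : (if A w d ρ P c (0 + 1) x = A w d ρ P c (0 + 1) y then (1 : ℝ) else 0) = 1 := by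
        apply if_pos
        rw [A_succ_iff]
        refine ⟨hl, ?_⟩
        funext i
        simp [A]
      have e2 : ∀ i, (if A w d ρ P c (i + 1 + 1) x = A w d ρ P c (i + 1 + 1) y then (1 : ℝ) else 0) =
          (if A w d ρ P c (i + 1) (F P c x) = A w d ρ P c (i + 1) (F P c y) then (1 : ℝ) else 0) := by
        intro i
        by_cases h4 : A w d ρ P c (i + 1) (F P c x) = A w d ρ P c (i + 1) (F P c y)
        · rw [if_pos h4, if_pos ((A_succ_iff d ρ P c (i + 1) x y).2 ⟨hl, h4⟩)]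
        · rw [if_neg h4, if_neg fun h5 => h4 ((A_succ_iff d ρ P c (i + 1) x y).1 h5).2]
      rw [e1, sum_congr rfl fun i _ => e2 i]
      linarith
    · have e1 : ∑ j ∈ range (m + 1),
          (if A w d ρ P c (j + 1) x = A w d ρ P c (j + 1) y then (1 : ℝ) else 0) = 0 := by
        refine sum_eq_zero fun j _ => if_neg fun h => hl ?_
        exact ((A_succ_iff d ρ P c j x y).1 h).1
      rw [e1, mul_zero, sub_zero, mul_one]
      exact base x y hx hy hxy

open scoped Classical in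
lemma energy_le (hw : IsNonarchimedean w)
    (hQ : ∀ x : L, IsAlgebraic ℚ x → x ≠ 0 → w x = 1) {d : ℕ} (hd : 2 ≤ d) {P : L[X]}
    (hP : GoodP w d P) {c ρ : L} (hρ : P.leadingCoeff * ρ ^ d = -c) (hc : 1 < w c) (S : Finset L) (hS : ∀ x ∈ S, Pre P c x) (m : ℕ) :
    ∑ x ∈ S, ∑ y ∈ S.erase x, Real.log (w (x - y)) ≤
      Real.log (w ρ) * ((S.card : ℝ) ^ 2 - S.card - ((d : ℝ) - 1) * ∑ j ∈ range m,
        ((∑ x ∈ S, ∑ y ∈ S, (if A w d ρ P c (j + 1) x = A w d ρ P c (j + 1) y then (1 : ℝ) else 0))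
          - S.card)) := by
  have h1 : ∑ x ∈ S, ∑ y ∈ S.erase x, Real.log (w (x - y)) ≤
      ∑ x ∈ S, ∑ y ∈ S.erase x, Real.log (w ρ) * (1 - ((d : ℝ) - 1) * ∑ j ∈ range m,
        (if A w d ρ P c (j + 1) x = A w d ρ P c (j + 1) y then (1 : ℝ) else 0)) :=
    sum_le_sum fun x hx => sum_le_sum fun y hy =>
      log_le hw hQ hd hP hρ hc m x y (hS x hx) (hS y (mem_of_mem_erase hy)) (ne_of_mem_erase hy).symm
  refine h1.trans (le_of_eq ?_)
  have h2 : ∀ x ∈ S, ∑ y ∈ S.erase x, Real.log (w ρ) * (1 - ((d : ℝ) - 1) * ∑ j ∈ range m,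
        (if A w d ρ P c (j + 1) x = A w d ρ P c (j + 1) y then (1 : ℝ) else 0)) =
      Real.log (w ρ) * (((S.card : ℝ) - 1) - ((d : ℝ) - 1) * ∑ j ∈ range m,
        ((∑ y ∈ S, (if A w d ρ P c (j + 1) x = A w d ρ P c (j + 1) y then (1 : ℝ) else 0)) - 1)) := by
    intro x hx
    rw [← mul_sum, sum_sub_distrib, ← mul_sum, sum_comm]
    congr 1
    congr 1
    · rw [sum_const, card_erase_of_mem hx, nsmul_eq_mul, mul_one,
        Nat.cast_sub (card_pos.2 ⟨x, hx⟩), Nat.cast_one]
    · congr 1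
      refine sum_congr rfl fun j _ => ?_
      rw [← add_sum_erase S _ hx, if_pos rfl]
      ring
  rw [sum_congr rfl h2, ← mul_sum, sum_sub_distrib, ← mul_sum, sum_comm]
  congr 1
  congr 1
  · rw [sum_const, nsmul_eq_mul]; ring
  · congr 1
    refine sum_congr rfl fun j _ => ?_
    rw [sum_sub_distrib, sum_const, nsmul_eq_mul, mul_one]

open scoped Classical in
lemma card_A_succ {d : ℕ} {P : L[X]} {ρ c : L} (S : Finset L) (j K : ℕ)
    (hK : ∀ x ∈ S, ((S.filter fun y => A w d ρ P c j y = A w d ρ P c j x).image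
      fun y => lab w d ρ ((F P c)^[j] y)).card ≤ K) :
    (S.image (A w d ρ P c (j + 1))).card ≤ K * (S.image (A w d ρ P c j)).card := by
  set tr : (ℕ → L) → (ℕ → L) := fun h i => if i < j then h i else 0 with htr
  have htrA : ∀ x, tr (A w d ρ P c (j + 1) x) = A w d ρ P c j x := by
    intro x
    funext i
    simp only [htr, A]
    by_cases hi : i < j
    · rw [if_pos hi, if_pos hi, if_pos (by omega)]
    · rw [if_neg hi, if_neg hi]
  have himg : (S.image (A w d ρ P c (j + 1))).image tr = S.image (A w d ρ P c j) := by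
    rw [image_image]
    congr 1
    funext x
    exact htrA x
  rw [← himg]
  refine card_le_mul_card_image _ K ?_
  intro a ha
  rw [himg] at ha
  obtain ⟨x, hx, rfl⟩ := mem_image.1 ha
  refine le_trans ?_ (hK x hx)
  refine card_le_card_of_injOn (fun h => h j) ?_ ?_
  · intro h hh
    rw [mem_coe, mem_filter] at hh
    obtain ⟨y, hy, rfl⟩ := mem_image.1 hh.1
    rw [htrA] at hh
    rw [mem_coe]
    refine mem_image.2 ⟨y, mem_filter.2 ⟨hy, hh.2⟩, ?_⟩
    simp [A]
  · intro h hh h' hh' hj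
    rw [mem_coe, mem_filter] at hh hh'
    obtain ⟨y, hy, rfl⟩ := mem_image.1 hh.1
    obtain ⟨y', hy', rfl⟩ := mem_image.1 hh'.1
    rw [htrA] at hh hh'
    have h1 : A w d ρ P c j y = A w d ρ P c j y' := hh.2.trans hh'.2.symm
    rw [A_iff] at h1 ⊢
    intro i hi
    rcases Nat.lt_succ_iff_lt_or_eq.1 hi with h2 | h2
    · exact h1 i h2
    · subst h2
      simpa [A] using hj

open scoped Classical in
lemma card_A_step (hw : IsNonarchimedean w) {d : ℕ} (hd : 2 ≤ d) {P : L[X]}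
    (hP : GoodP w d P) {c ρ : L} (hρ : P.leadingCoeff * ρ ^ d = -c) (hc : 1 < w c) (S : Finset L) (hS : ∀ x ∈ S, Pre P c x) (j : ℕ) :
    (S.image (A w d ρ P c (j + 1))).card ≤ d * (S.image (A w d ρ P c j)).card := by
  refine card_A_succ S j d fun x _ => ?_
  obtain ⟨ζ, hζ⟩ := exists_prim L d (by omega)
  refine le_trans (card_le_card (t := nthRootsFinset d (1 : L)) fun a ha => ?_)
    hζ.card_nthRootsFinset.le
  obtain ⟨y, hy, rfl⟩ := mem_image.1 ha
  rw [mem_nthRootsFinset (by omega)]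
  exact (pre_lab hw hd hP hρ hc ((hS y (mem_filter.1 hy).1).iter j)).1

open scoped Classical in
/-- **The energy at one place.** -/
theorem local_cp (hw : IsNonarchimedean w)
    (hQ : ∀ x : L, IsAlgebraic ℚ x → x ≠ 0 → w x = 1) {d q : ℕ} (hd : 2 ≤ d) (hq1 : 1 ≤ q)
    (hqd : q ≤ d)
    (hq : ∀ a b : L, a ^ d = 1 → b ^ d = 1 → a ≠ b → ∀ T : Finset L,
      (∀ a' ∈ T, ∃ b', a' ^ d = 1 ∧ b' ^ d = 1 ∧ a - b = a' - b') → T.card ≤ q)
    {P : L[X]} (hP : GoodP w d P) {c c' ρ : L} (hρ : P.leadingCoeff * ρ ^ d = -c) (hc : 1 < w c) (hne : c ≠ c')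
    (S : Finset L) (hSne : S.Nonempty)
    (hS : ∀ x ∈ S, Pre P c x ∧ Pre P c' x) (m : ℕ) (hm : 1 ≤ m) :
    ∃ n : ℕ, Real.log (w (c - c')) = (1 - n * ((d : ℝ) - 1)) * Real.log (w ρ) ∧
      ∑ x ∈ S, ∑ y ∈ S.erase x, Real.log (w (x - y)) ≤ Real.log (w ρ) *
        (-((S.card : ℝ) ^ 2 * ((1 / (d : ℝ)) ^ n * (1 / q - 1 / d))) +
          (S.card : ℝ) ^ 2 * (d * (1 / (d : ℝ)) ^ m / q) +
          S.card * (((d : ℝ) - 1) * m - 1)) := by
  have hR := root_gt hP hρ hc
  have hR0 : 0 < w ρ := by linarith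
  have hℓ : 0 < Real.log (w ρ) := Real.log_pos hR
  have hd0 : (0 : ℝ) < d := by exact_mod_cast (by omega : 0 < d)
  have hd1 : (1 : ℝ) ≤ d := by exact_mod_cast (by omega : 1 ≤ d)
  have hq0 : (0 : ℝ) < q := by exact_mod_cast (by omega : 0 < q)
  obtain ⟨x₀, hx₀⟩ := hSne
  obtain ⟨n, hn, hi⟩ := exists_sep hw hQ hd hP hρ hc (hS x₀ hx₀).1 (hS x₀ hx₀).2 hne
  have hδ : 0 < w (c - c') := w.pos (sub_ne_zero.2 hne)
  refine ⟨n, ?_, ?_⟩
  · have h1 := congrArg Real.log hn
    rw [Real.log_mul hδ.ne' (by positivity), Real.log_pow, Real.log_pow,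
      Nat.cast_sub (by omega : 1 ≤ d), Nat.cast_one] at h1
    linarith
  have hSc : ∀ x ∈ S, Pre P c x := fun x hx => (hS x hx).1
  -- the numbers of classes
  have k1 : ∀ j, ((S.image (A w d ρ P c j)).card : ℝ) ≤ (d : ℝ) ^ j := by
    intro j
    have : (S.image (A w d ρ P c j)).card ≤ d ^ j := by
      induction j with
      | zero =>
        rw [pow_zero, card_le_one]
        intro a ha b hb
        obtain ⟨x, _, rfl⟩ := mem_image.1 ha
        obtain ⟨y, _, rfl⟩ := mem_image.1 hb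
        rw [A_iff]
        intro i hi
        omega
      | succ j ih =>
        refine (card_A_step hw hd hP hρ hc S hSc j).trans ?_
        rw [pow_succ, mul_comm]
        exact Nat.mul_le_mul_right d ih
    exact_mod_cast this
  have k2 : (S.image (A w d ρ P c (n + 1 + 1))).card ≤ q * d ^ (n + 1) := by
    have h1 : (S.image (A w d ρ P c (n + 1 + 1))).card ≤ q * (S.image (A w d ρ P c (n + 1))).card := by
      refine card_A_succ S (n + 1) q fun x hx => ?_
      obtain ⟨b, -, hb, -, hab, -, hb2⟩ := sep_root hw hQ hd hP hρ hc (hS x hx).1 (hS x hx).2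
        (hS x hx).1 (hS x hx).2 hne n hn hi (fun j _ => rfl)
      refine hq (lab w d ρ ((F P c)^[n + 1] x)) b
        (pre_lab hw hd hP hρ hc ((hS x hx).1.iter (n + 1))).1 hb hab _ ?_
      intro a' ha'
      obtain ⟨y, hy, rfl⟩ := mem_image.1 ha'
      obtain ⟨hyS, hyA⟩ := mem_filter.1 hy
      rw [A_iff] at hyA
      obtain ⟨b₁, b', hb₁, hb', -, hs, hb₁2⟩ := sep_root hw hQ hd hP hρ hc (hS x hx).1 (hS x hx).2
        (hS y hyS).1 (hS y hyS).2 hne n hn hi (fun j hj => (hyA j (by omega)).symm)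
      have hbb : b₁ = b := lab_unique hw hQ (by omega) hb₁ hb hb₁2 hb2
      rw [hbb] at hs
      exact ⟨b', (pre_lab hw hd hP hρ hc ((hS y hyS).1.iter (n + 1))).1, hb', hs⟩
    refine h1.trans (Nat.mul_le_mul_left q ?_)
    exact_mod_cast k1 (n + 1)
  have k3 : ∀ j, n + 1 ≤ j → ((S.image (A w d ρ P c (j + 1))).card : ℝ) ≤ q * (d : ℝ) ^ j := by
    intro j hj
    have : (S.image (A w d ρ P c (j + 1))).card ≤ q * d ^ j := by
      induction j, hj using Nat.le_induction with
      | base => exact k2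
      | succ j hj ih =>
        refine (card_A_step hw hd hP hρ hc S hSc (j + 1)).trans ?_
        calc d * (S.image (A w d ρ P c (j + 1))).card ≤ d * (q * d ^ j) := Nat.mul_le_mul_left d ih
          _ = q * d ^ (j + 1) := by ring
    exact_mod_cast this
  -- the numbers of pairs
  set N : ℝ := (S.card : ℝ) with hN
  have hPP : ∀ j, N ^ 2 * (if j + 1 ≤ n + 1 then (1 / (d : ℝ)) ^ (j + 1)
        else d * (1 / (d : ℝ)) ^ (j + 1) / q) ≤
      ∑ x ∈ S, ∑ y ∈ S, (if A w d ρ P c (j + 1) x = A w d ρ P c (j + 1) y then (1 : ℝ) else 0) := by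
    intro j
    have h1 := cs_pairs S (A w d ρ P c (j + 1))
    rw [← hN] at h1
    set P := ∑ x ∈ S, ∑ y ∈ S, (if A w d ρ P c (j + 1) x = A w d ρ P c (j + 1) y then (1 : ℝ) else 0)
      with hPdef
    have hP0 : 0 ≤ P := sum_nonneg fun x _ => sum_nonneg fun y _ => by split_ifs <;> norm_num
    by_cases hj : j + 1 ≤ n + 1
    · rw [if_pos hj, one_div, inv_pow, ← div_eq_mul_inv, div_le_iff₀ (by positivity)]
      calc N ^ 2 ≤ _ := h1
        _ ≤ (d : ℝ) ^ (j + 1) * P := mul_le_mul_of_nonneg_right (k1 _) hP0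
        _ = P * (d : ℝ) ^ (j + 1) := mul_comm _ _
    · rw [if_neg hj]
      have e : N ^ 2 * (d * (1 / (d : ℝ)) ^ (j + 1) / q) = N ^ 2 / (q * (d : ℝ) ^ j) := by
        rw [one_div, inv_pow, pow_succ]
        field_simp
        try ring
      rw [e, div_le_iff₀ (by positivity)]
      calc N ^ 2 ≤ _ := h1
        _ ≤ (q * (d : ℝ) ^ j) * P := mul_le_mul_of_nonneg_right (k3 j (by omega)) hP0
        _ = P * (q * (d : ℝ) ^ j) := mul_comm _ _
  have hE := energy_le hw hQ hd hP hρ hc S hSc m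
  rw [← hN] at hE
  refine hE.trans (mul_le_mul_of_nonneg_left ?_ hℓ.le)
  have hg := geom_sum_est d q hd hq1 hqd n m hm
  have h1 : N ^ 2 * (1 + (1 / (d : ℝ)) ^ n * (1 / q - 1 / d) - d * (1 / (d : ℝ)) ^ m / q) ≤
      ((d : ℝ) - 1) * ∑ j ∈ range m,
        (∑ x ∈ S, ∑ y ∈ S, (if A w d ρ P c (j + 1) x = A w d ρ P c (j + 1) y then (1 : ℝ) else 0)) := by
    refine (mul_le_mul_of_nonneg_left hg (sq_nonneg N)).trans ?_
    rw [mul_left_comm, mul_sum]
    exact mul_le_mul_of_nonneg_left (sum_le_sum fun j _ => hPP j) (by linarith)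
  rw [sum_sub_distrib, sum_const, card_range, nsmul_eq_mul, mul_sub]
  linarith

end Pool.Agent.TH737.CP
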