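import Pool.Agent.TH737.CP.Ener
import Pool.Agent.TH737.FE.Ex
import Pool.Agent.TH450.FG.G

/-!
# Common preperiodic points: the global estimate
-/

set_option autoImplicit false

namespace Pool.Agent.TH737.CP

open Finset Polynomial Pool.Agent.TH737.FE Pool.Agent.TH737.HEN

universe u v w

lemma F_map {K M : Type*} [Field K] [Field M] (φ : K →+* M) (P : K[X]) (c x : K) (n : ℕ) :
    (F (P.map φ) (φ c))^[n] (φ x) = φ ((F P c)^[n] x) := by
  induction n with
  | zero => rfl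
  | succ n ih =>
    rw [Function.iterate_succ_apply', Function.iterate_succ_apply', ih]
    unfold F
    rw [map_add, eval_map_apply]

lemma Pre.map {K M : Type*} [Field K] [Field M] (φ : K →+* M) {P : K[X]} {c x : K}
    (h : Pre P c x) : Pre (P.map φ) (φ c) (φ x) := by
  have h' : (Set.range fun n : ℕ => (F P c)^[n] x).Finite := h
  refine Set.Finite.subset (h'.image φ) ?_
  rintro _ ⟨n, rfl⟩
  exact ⟨(F P c)^[n] x, ⟨n, rfl⟩, (F_map φ P c x n).symm⟩

/-- algebraic numbers have absolute value one -/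
lemma abs_alg {L : Type*} [Field L] [CharZero L] (W : AbsoluteValue L ℝ)
    (h : ∀ r : ℚ, r ≠ 0 → W (algebraMap ℚ L r) = 1) (x : L) (hx : IsAlgebraic ℚ x) (hx0 : x ≠ 0) :
    W x = 1 := by
  have key : ∀ y : L, IsAlgebraic ℚ y → ¬ 1 < W y := by
    intro y hy h1
    obtain ⟨P, hP, hP'⟩ := hy
    have h2 := abs_aeval W h y h1 P hP
    rw [hP', map_zero] at h2
    have : 0 < W y ^ P.natDegree := by positivity
    linarith
  refine le_antisymm (not_lt.1 (key x hx)) ?_
  by_contra hcon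
  push Not at hcon
  refine key x⁻¹ hx.inv ?_
  rw [map_inv₀]
  exact (one_lt_inv₀ (W.pos hx0)).2 hcon

/-- **The bound for common preperiodic points.** -/
theorem glob_cp {k : Type v} {K : Type u} [Field k] [Field K] [Algebra k K] [CharZero K]
    (Q : Pool.Agent.TH450.FG.PF.{u, v, w} k K) {d q : ℕ} (hd : 2 ≤ d) (hq1 : 1 ≤ q)
    (hqd : q ≤ d)
    (hq : ∀ a b : AlgebraicClosure K, a ^ d = 1 → b ^ d = 1 → a ≠ b →
      ∀ T : Finset (AlgebraicClosure K),
      (∀ a' ∈ T, ∃ b', a' ^ d = 1 ∧ b' ^ d = 1 ∧ a - b = a' - b') → T.card ≤ q)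
    (P : k[X]) (hP : P.natDegree = d)
    (c c' : K) (hne : c ≠ c') (halg : ¬ (IsAlgebraic k c ∧ IsAlgebraic k c'))
    (S : Finset K) (hSne : S.Nonempty)
    (hS : ∀ x ∈ S, Pre (P.map (algebraMap k K)) c x ∧ Pre (P.map (algebraMap k K)) c' x) (m : ℕ)
    (hm : 1 ≤ m) :
    (S.card : ℝ) * ((1 - 1 / (d : ℝ)) * (1 / q - 1 / d) - d * (1 / (d : ℝ)) ^ m / q) ≤
      ((d : ℝ) - 1) * m - 1 := by
  classical
  set φ := algebraMap K (AlgebraicClosure K) with hφ
  haveI : CharZero (AlgebraicClosure K) := charZero_of_injective_algebraMap φ.injective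
  have hd0 : (0 : ℝ) < d := by exact_mod_cast (by omega : 0 < d)
  have hd2 : (2 : ℝ) ≤ d := by exact_mod_cast hd
  have hq0 : (0 : ℝ) < q := by exact_mod_cast (by omega : 0 < q)
  choose W hW using fun v => Pool.Agent.TH450.FG.exists_ext_gen (Q.V v) (Q.na v)
  have hWna : ∀ v, IsNonarchimedean (W v) := fun v => Pool.Agent.TH450.FG.ext_na (Q.na v) (hW v)
  have hW' : ∀ v x, W v (φ x) = Q.V v x := fun v x => hW v x
  have hQ : ∀ v, ∀ x : AlgebraicClosure K, IsAlgebraic ℚ x → x ≠ 0 → W v x = 1 := by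
    intro v
    refine abs_alg (W v) fun r hr => ?_
    haveI : CharZero k := by
      refine ⟨fun a b hab => ?_⟩
      have h1 : ((a : k) : k) = (b : k) := hab
      have h2 := congrArg (algebraMap k K) h1
      rw [map_natCast, map_natCast] at h2
      exact_mod_cast h2
    have e : algebraMap ℚ (AlgebraicClosure K) r = φ (algebraMap k K (algebraMap ℚ k r)) := by
      simp
    rw [e, hW']
    refine Q.triv v _ ?_
    simpa using hr
  have hGood : ∀ v, GoodP (W v) d ((P.map (algebraMap k K)).map φ) := by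
    intro v
    have hP0 : P ≠ 0 := by
      rintro rfl
      rw [natDegree_zero] at hP
      omega
    refine ⟨?_, ?_, ?_⟩
    · rw [natDegree_map_eq_of_injective φ.injective,
        natDegree_map_eq_of_injective (algebraMap k K).injective, hP]
    · rw [leadingCoeff_map, leadingCoeff_map, hW']
      exact Q.triv v _ (leadingCoeff_ne_zero.2 hP0)
    · intro j
      rw [coeff_map, coeff_map, hW']
      by_cases h0 : P.coeff j = 0
      · rw [h0, map_zero, map_zero]; exact zero_le_one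
      · exact (Q.triv v _ h0).le
  set N : ℝ := (S.card : ℝ) with hN
  have hNpos : 0 < N := by rw [hN]; exact_mod_cast card_pos.2 hSne
  set U : ℝ := 1 / (d : ℝ) with hU
  have hU0 : 0 < U := by rw [hU]; positivity
  have hU1 : U ≤ 1 := by rw [hU, div_le_one hd0]; linarith
  have hdU : (d : ℝ) * U = 1 := by rw [hU]; field_simp
  set γ : ℝ := 1 / q - U with hγ
  have hγ0 : 0 ≤ γ := by
    have : 1 / (d : ℝ) ≤ 1 / q := one_div_le_one_div_of_le hq0 (by exact_mod_cast hqd)
    rw [hγ, hU]; linarith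
  -- the local estimates
  have hloc : ∀ v, 1 < Q.V v c → ∃ (ℓ : ℝ) (n : ℕ), 0 < ℓ ∧
      Real.log (Q.V v (c - c')) = (1 - n * ((d : ℝ) - 1)) * ℓ ∧
      ∑ x ∈ S, ∑ y ∈ S.erase x, Real.log (Q.V v (x - y)) ≤ ℓ *
        (-(N ^ 2 * (U ^ n * γ)) + N ^ 2 * (d * U ^ m / q) + N * (((d : ℝ) - 1) * m - 1)) := by
    intro v hv
    obtain ⟨ρ, hρ⟩ := exists_rho (by omega : 0 < d) (lead_ne (hGood v)) (φ c)
    have hc1 : 1 < W v (φ c) := by rw [hW']; exact hv
    have hSc : (S.image φ).card = S.card := card_image_of_injective _ φ.injective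
    obtain ⟨n, h1, h2⟩ := local_cp (hWna v) (hQ v) hd hq1 hqd hq (hGood v) hρ hc1
      (c' := φ c') (fun h => hne (φ.injective h)) (S.image φ) (hSne.image φ)
      (by
        intro x hx
        obtain ⟨y, hy, rfl⟩ := mem_image.1 hx
        exact ⟨(hS y hy).1.map φ, (hS y hy).2.map φ⟩) m hm
    refine ⟨Real.log (W v ρ), n, Real.log_pos (root_gt (hGood v) hρ hc1), ?_, ?_⟩
    · rw [← hW', map_sub]; exact h1
    · rw [hSc] at h2
      have e : ∑ x ∈ S, ∑ y ∈ S.erase x, Real.log (Q.V v (x - y)) =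
          ∑ x ∈ S.image φ, ∑ y ∈ (S.image φ).erase x, Real.log (W v (x - y)) := by
        rw [sum_image (fun a _ b _ h => φ.injective h)]
        refine sum_congr rfl fun x _ => ?_
        rw [← image_erase φ.injective, sum_image (fun a _ b _ h => φ.injective h)]
        refine sum_congr rfl fun y _ => ?_
        rw [← map_sub, hW']
      rw [e]
      exact h2
  have hsmall : ∀ v, ¬ 1 < Q.V v c → Q.V v c' ≤ 1 ∧ ∀ x ∈ S, Q.V v x ≤ 1 := by
    intro v hv
    have hv' : W v (φ c) ≤ 1 := by rw [hW']; exact not_lt.1 hv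
    have h1 : ∀ x ∈ S, Q.V v x ≤ 1 := by
      intro x hx
      rw [← hW']
      exact pre_le_one (hWna v) hd (hGood v) ((hS x hx).1.map φ) hv'
    refine ⟨?_, h1⟩
    by_contra hcon
    push Not at hcon
    obtain ⟨x, hx⟩ := hSne
    obtain ⟨ρ, hρ⟩ := exists_rho (by omega : 0 < d) (lead_ne (hGood v)) (φ c')
    have hc1 : 1 < W v (φ c') := by rw [hW']; exact hcon
    have h2 := pre_abs (hWna v) hd (hGood v) hρ hc1 ((hS x hx).2.map φ)
    have h3 := root_gt (hGood v) hρ hc1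
    rw [← h2, hW'] at h3
    have := h1 x hx
    linarith
  choose! ℓ n hℓ hn hE using hloc
  -- the places
  set Z : Finset K := {c, c', c - c'} ∪ S.biUnion (fun x => S.image fun y => x - y) with hZ
  set Sp : Finset Q.Pl := Z.biUnion fun z =>
    if h : z ≠ 0 then (Q.fin z h).toFinset else ∅ with hSp
  have hout : ∀ z ∈ Z, z ≠ 0 → ∀ v, v ∉ Sp → Q.V v z = 1 := by
    intro z hz hz0 v hv
    by_contra hcon
    apply hv
    rw [hSp, mem_biUnion]
    refine ⟨z, hz, ?_⟩
    rw [dif_pos hz0, Set.Finite.mem_toFinset]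
    exact hcon
  have hprod : ∀ z ∈ Z, z ≠ 0 → ∑ v ∈ Sp, Q.wt v * Real.log (Q.V v z) = 0 :=
    fun z hz hz0 => Q.prod z hz0 Sp (hout z hz hz0)
  have hcZ : c ∈ Z := by rw [hZ]; simp
  have hcZ' : c' ∈ Z := by rw [hZ]; simp
  have hδZ : c - c' ∈ Z := by rw [hZ]; simp
  have hxyZ : ∀ x ∈ S, ∀ y ∈ S, x - y ∈ Z := by
    intro x hx y hy
    rw [hZ, mem_union]
    right
    rw [mem_biUnion]
    exact ⟨x, hx, mem_image_of_mem _ hy⟩
  set B := Sp.filter (fun v => 1 < Q.V v c) with hB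
  have hBc : ∀ v ∈ B, 1 < Q.V v c := fun v hv => (mem_filter.1 hv).2
  set H := ∑ v ∈ B, Q.wt v * ℓ v with hH
  -- some bad place
  have hHpos : 0 < H := by
    refine sum_pos (fun v hv => mul_pos (Q.wt_pos v) (hℓ v (hBc v hv))) ?_
    by_contra hcon
    rw [not_nonempty_iff_eq_empty] at hcon
    apply halg
    have h1 : ∀ v, ¬ 1 < Q.V v c := by
      intro v hv
      have hc0 : c ≠ 0 := by
        rintro rfl
        rw [map_zero] at hv
        linarith
      have hvSp : v ∈ Sp := by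
        by_contra h2
        rw [hout c hcZ hc0 v h2] at hv
        exact lt_irrefl _ hv
      have : v ∈ B := mem_filter.2 ⟨hvSp, hv⟩
      rw [hcon] at this
      exact notMem_empty _ this
    have key : ∀ z ∈ Z, (∀ v, Q.V v z ≤ 1) → IsAlgebraic k z := by
      intro z hz hle
      by_cases hz0 : z = 0
      · rw [hz0]; exact isAlgebraic_zero
      refine Q.const z hz0 fun v => ?_
      by_cases hv : v ∈ Sp
      · have h2 : ∀ v ∈ Sp, Q.wt v * Real.log (Q.V v z) ≤ 0 := fun v _ =>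
          mul_nonpos_of_nonneg_of_nonpos (Q.wt_pos v).le
            (Real.log_nonpos ((Q.V v).nonneg _) (hle v))
        have h3 := (sum_eq_zero_iff_of_nonpos h2).1 (hprod z hz hz0) v hv
        rcases mul_eq_zero.1 h3 with h4 | h4
        · exact absurd h4 (Q.wt_pos v).ne'
        · exact Real.eq_one_of_pos_of_log_eq_zero ((Q.V v).pos hz0) h4
      · exact hout z hz hz0 v hv
    exact ⟨key c hcZ fun v => not_lt.1 (h1 v), key c' hcZ' fun v => (hsmall v (h1 v)).1⟩
  -- the difference of the parameters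
  have hδ : 0 ≤ ∑ v ∈ B, Q.wt v * ((1 - n v * ((d : ℝ) - 1)) * ℓ v) := by
    have h1 := hprod (c - c') hδZ (sub_ne_zero.2 hne)
    rw [← sum_filter_add_sum_filter_not Sp (fun v => 1 < Q.V v c)] at h1
    have h2 : ∑ v ∈ Sp.filter (fun v => ¬ 1 < Q.V v c), Q.wt v * Real.log (Q.V v (c - c')) ≤ 0 := by
      refine sum_nonpos fun v hv => ?_
      have hv' := (mem_filter.1 hv).2
      refine mul_nonpos_of_nonneg_of_nonpos (Q.wt_pos v).le
        (Real.log_nonpos ((Q.V v).nonneg _) ?_)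
      exact wsub_le' (Q.na v) (not_lt.1 hv') (hsmall v hv').1
    have h3 : ∑ v ∈ B, Q.wt v * ((1 - n v * ((d : ℝ) - 1)) * ℓ v) =
        ∑ v ∈ B, Q.wt v * Real.log (Q.V v (c - c')) :=
      sum_congr rfl fun v hv => by rw [hn v (hBc v hv)]
    rw [h3]
    rw [← hB] at h1
    linarith
  -- the differences of the points
  have hpts : 0 ≤ ∑ v ∈ B, Q.wt v * ∑ x ∈ S, ∑ y ∈ S.erase x, Real.log (Q.V v (x - y)) := by
    have h1 : ∑ v ∈ Sp, Q.wt v * ∑ x ∈ S, ∑ y ∈ S.erase x, Real.log (Q.V v (x - y)) = 0 := by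
      simp_rw [mul_sum]
      rw [sum_comm]
      refine sum_eq_zero fun x hx => ?_
      rw [sum_comm]
      refine sum_eq_zero fun y hy => ?_
      exact hprod _ (hxyZ x hx y (mem_of_mem_erase hy)) (sub_ne_zero.2 (ne_of_mem_erase hy).symm)
    rw [← sum_filter_add_sum_filter_not Sp (fun v => 1 < Q.V v c)] at h1
    have h2 : ∑ v ∈ Sp.filter (fun v => ¬ 1 < Q.V v c),
        Q.wt v * ∑ x ∈ S, ∑ y ∈ S.erase x, Real.log (Q.V v (x - y)) ≤ 0 := by
      refine sum_nonpos fun v hv => ?_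
      have hv' := (mem_filter.1 hv).2
      refine mul_nonpos_of_nonneg_of_nonpos (Q.wt_pos v).le
        (sum_nonpos fun x hx => sum_nonpos fun y hy =>
          Real.log_nonpos ((Q.V v).nonneg _) ?_)
      exact wsub_le' (Q.na v) ((hsmall v hv').2 x hx)
        ((hsmall v hv').2 y (mem_of_mem_erase hy))
    rw [← hB] at h1
    linarith
  have hbound : ∀ v ∈ B, Q.wt v * ∑ x ∈ S, ∑ y ∈ S.erase x, Real.log (Q.V v (x - y)) ≤
      (-(N ^ 2 * γ * (1 - U)) + N ^ 2 * (d * U ^ m / q) + N * (((d : ℝ) - 1) * m - 1)) *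
        (Q.wt v * ℓ v) - N ^ 2 * γ * U * (Q.wt v * ((1 - n v * ((d : ℝ) - 1)) * ℓ v)) := by
    intro v hv
    have h1 := mul_le_mul_of_nonneg_left (hE v (hBc v hv)) (Q.wt_pos v).le
    refine h1.trans ?_
    have h2 : 1 + (n v : ℝ) * (U - 1) ≤ U ^ n v := by
      have := one_add_mul_le_pow (a := U - 1) (by linarith) (n v)
      calc 1 + (n v : ℝ) * (U - 1) ≤ (1 + (U - 1)) ^ n v := this
        _ = U ^ n v := by ring
    have h3 : 0 ≤ Q.wt v * ℓ v := (mul_pos (Q.wt_pos v) (hℓ v (hBc v hv))).le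
    have h4 : (1 + (n v : ℝ) * (U - 1)) * (N ^ 2 * γ * (Q.wt v * ℓ v)) ≤
        U ^ n v * (N ^ 2 * γ * (Q.wt v * ℓ v)) :=
      mul_le_mul_of_nonneg_right h2 (by positivity)
    have h5 : (1 + (n v : ℝ) * (U - 1)) = (1 - U) + U * (1 - n v * ((d : ℝ) - 1)) := by
      linear_combination (n v : ℝ) * hdU
    rw [h5] at h4
    linarith
  have hfin := hpts.trans (sum_le_sum hbound)
  rw [sum_sub_distrib, ← mul_sum, ← mul_sum, ← hH] at hfin
  have h1 : 0 ≤ N ^ 2 * γ * U * ∑ v ∈ B, Q.wt v * ((1 - n v * ((d : ℝ) - 1)) * ℓ v) := by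
    have : 0 ≤ N ^ 2 * γ * U := by positivity
    exact mul_nonneg this hδ
  have h2 : 0 ≤ (-(N ^ 2 * γ * (1 - U)) + N ^ 2 * (d * U ^ m / q) +
      N * (((d : ℝ) - 1) * m - 1)) * H := by linarith
  have h3 := nonneg_of_mul_nonneg_left h2 hHpos
  have h4 : N * (N * ((1 - U) * (1 / q - U) - d * U ^ m / q)) ≤
      N * (((d : ℝ) - 1) * m - 1) := by
    have e : N * (N * ((1 - U) * (1 / q - U) - d * U ^ m / q)) =
        N ^ 2 * γ * (1 - U) - N ^ 2 * (d * U ^ m / q) := by rw [hγ]; ring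
    rw [e]
    linarith
  exact le_of_mul_le_mul_left h4 hNpos

end Pool.Agent.TH737.CP
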