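import Pool.Agent.TH737.CP.Root
import Pool.Agent.TH737.FE.Rad
import Pool.Agent.TH737.HEN.NA

/-!
# Common preperiodic points: the structure at one place
-/

set_option autoImplicit false

namespace Pool.Agent.TH737.CP

open Finset Polynomial Pool.Agent.TH737.FE Pool.Agent.TH737.HEN

/-- the map `P + c` -/
noncomputable def F {L : Type*} [Field L] (P : L[X]) (c : L) : L → L := fun y => P.eval y + c

/-- finite orbit -/
def Pre {L : Type*} [Field L] (P : L[X]) (c : L) (x : L) : Prop :=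
  (Set.range fun n : ℕ => (F P c)^[n] x).Finite

lemma Pre.next {L : Type*} [Field L] {P : L[X]} {c x : L} (h : Pre P c x) :
    Pre P c (F P c x) := by
  refine Set.Finite.subset h ?_
  rintro _ ⟨n, rfl⟩
  exact ⟨n + 1, by simp only [Function.iterate_succ_apply]⟩

lemma Pre.iter {L : Type*} [Field L] {P : L[X]} {c x : L} (h : Pre P c x) (i : ℕ) :
    Pre P c ((F P c)^[i] x) := by
  induction i with
  | zero => exact h
  | succ i ih => rw [Function.iterate_succ_apply']; exact ih.next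

/-- a polynomial of degree `d` with integral coefficients and unit leading coefficient -/
def GoodP {L : Type*} [Field L] (w : AbsoluteValue L ℝ) (d : ℕ) (P : L[X]) : Prop :=
  P.natDegree = d ∧ w P.leadingCoeff = 1 ∧ ∀ j, w (P.coeff j) ≤ 1

section
variable {L : Type*} [Field L] {w : AbsoluteValue L ℝ}

lemma wadd (hw : IsNonarchimedean w) {a b : L} (h : w a < w b) : w (a + b) = w b := by
  have h1 := wiso hw (x := a) (y := 0) (z := -b) (by simpa using h)
  simpa using h1

lemma wadd_lt (hw : IsNonarchimedean w) {a b : L} {B : ℝ} (h : w a < B) (h' : w b < B) :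
    w (a + b) < B := (hw a b).trans_lt (max_lt h h')

lemma wsub_lt (hw : IsNonarchimedean w) {a b : L} {B : ℝ} (h : w a < B) (h' : w b < B) :
    w (a - b) < B := by
  rw [sub_eq_add_neg]
  exact wadd_lt hw h (by rwa [w.map_neg])

lemma wsub_le' (hw : IsNonarchimedean w) {a b : L} {B : ℝ} (h : w a ≤ B) (h' : w b ≤ B) :
    w (a - b) ≤ B := by
  rw [sub_eq_add_neg]
  exact (hw _ _).trans (max_le h (by rwa [w.map_neg]))

/-- the lower part -/
lemma eval_split {d : ℕ} {P : L[X]} (hP : P.natDegree = d) (x : L) :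
    P.eval x = ∑ i ∈ range d, P.coeff i * x ^ i + P.leadingCoeff * x ^ d := by
  rw [eval_eq_sum_range, sum_range_succ, leadingCoeff, hP]

lemma lower_le (hw : IsNonarchimedean w) {d : ℕ} (hd : 1 ≤ d) {P : L[X]} (hP : GoodP w d P)
    {x : L} {R : ℝ} (hR : 1 ≤ R) (hx : w x ≤ R) :
    w (∑ i ∈ range d, P.coeff i * x ^ i) ≤ R ^ (d - 1) := by
  refine sum_le_of_nonarch w hw _ _ _ (by positivity) fun i hi => ?_
  have hi' := mem_range.1 hi
  rw [map_mul, map_pow]
  calc w (P.coeff i) * w x ^ i ≤ 1 * R ^ (d - 1) :=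
        mul_le_mul (hP.2.2 i) ((pow_le_pow_left₀ (w.nonneg _) hx i).trans
          (pow_le_pow_right₀ hR (by omega))) (by positivity) zero_le_one
    _ = R ^ (d - 1) := one_mul _

lemma eval_big (hw : IsNonarchimedean w) {d : ℕ} (hd : 1 ≤ d) {P : L[X]} (hP : GoodP w d P)
    {x : L} (hx : 1 < w x) : w (P.eval x) = w x ^ d := by
  rw [eval_split hP.1, wadd hw, map_mul, map_pow, hP.2.1, one_mul]
  rw [map_mul, map_pow, hP.2.1, one_mul]
  refine (lower_le hw hd hP hx.le le_rfl).trans_lt ?_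
  exact pow_lt_pow_right₀ hx (by omega)

lemma eval_small (hw : IsNonarchimedean w) {d : ℕ} {P : L[X]} (hP : GoodP w d P)
    {x : L} (hx : w x ≤ 1) : w (P.eval x) ≤ 1 := by
  rw [eval_eq_sum_range]
  refine sum_le_of_nonarch w hw _ _ _ zero_le_one fun i _ => ?_
  rw [map_mul, map_pow]
  exact mul_le_one₀ (hP.2.2 i) (by positivity) (pow_le_one₀ (w.nonneg _) hx)

lemma orbit_bound (hw : IsNonarchimedean w) {d : ℕ} (hd : 2 ≤ d) {P : L[X]} (hP : GoodP w d P)
    {c x : L} (h : Pre P c x) : w x ≤ 1 ∨ w x ^ d ≤ w c := by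
  classical
  have h' : (Set.range fun n : ℕ => (F P c)^[n] x).Finite := h
  obtain ⟨y, hy, hmax⟩ := exists_max_image h'.toFinset w ⟨x, by
    rw [Set.Finite.mem_toFinset]; exact ⟨0, rfl⟩⟩
  rw [Set.Finite.mem_toFinset] at hy
  obtain ⟨n, rfl⟩ := hy
  dsimp only at hmax
  set y := (F P c)^[n] x with hy
  have hx : w x ≤ w y := hmax x (by rw [Set.Finite.mem_toFinset]; exact ⟨0, rfl⟩)
  have hfy : w (F P c y) ≤ w y := hmax _ (by
    rw [Set.Finite.mem_toFinset]
    exact ⟨n + 1, by rw [hy]; simp only [Function.iterate_succ_apply']⟩)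
  by_cases h1 : w y ≤ 1
  · left; exact hx.trans h1
  · push Not at h1
    right
    refine (pow_le_pow_left₀ (w.nonneg _) hx d).trans ?_
    by_contra hcon
    push Not at hcon
    have h2 : w (F P c y) = w y ^ d := by
      unfold F
      rw [add_comm, wadd hw (by rw [eval_big hw (by omega) hP h1]; exact hcon),
        eval_big hw (by omega) hP h1]
    rw [h2] at hfy
    have h3 : w y ^ 1 < w y ^ d := pow_lt_pow_right₀ h1 (by omega)
    rw [pow_one] at h3
    linarith

lemma pre_le_one (hw : IsNonarchimedean w) {d : ℕ} (hd : 2 ≤ d) {P : L[X]} (hP : GoodP w d P)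
    {c x : L} (h : Pre P c x) (hc : w c ≤ 1) : w x ≤ 1 := by
  rcases orbit_bound hw hd hP h with h1 | h1
  · exact h1
  · by_contra hcon
    push Not at hcon
    have : 1 < w x ^ d := one_lt_pow₀ hcon (by omega)
    linarith

lemma root_abs {d : ℕ} {P : L[X]} (hP : GoodP w d P) {c ρ : L}
    (hρ : P.leadingCoeff * ρ ^ d = -c) : w ρ ^ d = w c := by
  have := congrArg w hρ
  rw [map_mul, hP.2.1, one_mul, map_pow, w.map_neg] at this
  exact this

lemma root_gt {d : ℕ} {P : L[X]} (hP : GoodP w d P) {c ρ : L}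
    (hρ : P.leadingCoeff * ρ ^ d = -c) (hc : 1 < w c) : 1 < w ρ := by
  by_contra hcon
  push Not at hcon
  have h1 := pow_le_one₀ (n := d) (w.nonneg ρ) hcon
  rw [root_abs hP hρ] at h1
  linarith

lemma pre_abs (hw : IsNonarchimedean w) {d : ℕ} (hd : 2 ≤ d) {P : L[X]} (hP : GoodP w d P)
    {c x ρ : L} (hρ : P.leadingCoeff * ρ ^ d = -c) (hc : 1 < w c) (h : Pre P c x) :
    w x = w ρ := by
  have hR := root_gt hP hρ hc
  have hRd := root_abs (w := w) hP hρ
  have hle : ∀ y, Pre P c y → w y ≤ w ρ := by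
    intro y hy
    rcases orbit_bound hw hd hP hy with h1 | h1
    · exact h1.trans hR.le
    · rw [← hRd] at h1
      exact le_of_pow_le_pow_left₀ (by omega) (w.nonneg _) h1
  refine le_antisymm (hle x h) ?_
  by_contra hcon
  push Not at hcon
  have h1 := hle _ h.next
  have h2 : w (F P c x) = w c := by
    unfold F
    rw [wadd hw]
    rcases le_or_gt (w x) 1 with h3 | h3
    · exact (eval_small hw hP h3).trans_lt hc
    · rw [eval_big hw (by omega) hP h3, ← hRd]
      exact pow_lt_pow_left₀ hcon (w.nonneg _) (by omega)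
  rw [h2, ← hRd] at h1
  have h3 : w ρ ^ 1 < w ρ ^ d := pow_lt_pow_right₀ hR (by omega)
  rw [pow_one] at h3
  linarith

end

section
variable {L : Type*} [Field L] [CharZero L] [IsAlgClosed L] {w : AbsoluteValue L ℝ}

lemma exists_prim (L : Type*) [Field L] [CharZero L] [IsAlgClosed L] (d : ℕ) (hd : 0 < d) :
    ∃ ζ : L, IsPrimitiveRoot ζ d := by
  haveI : NeZero d := ⟨by omega⟩
  haveI : NeZero (d : L) := ⟨by exact_mod_cast (by omega : d ≠ 0)⟩
  exact HasEnoughRootsOfUnity.exists_primitiveRoot L d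

lemma alg_root {d : ℕ} (hd : 0 < d) {a : L} (ha : a ^ d = 1) : IsAlgebraic ℚ a :=
  (IsIntegral.of_pow hd (by rw [ha]; exact isIntegral_one)).isAlgebraic

lemma root_w (hQ : ∀ x : L, IsAlgebraic ℚ x → x ≠ 0 → w x = 1) {d : ℕ} (hd : 0 < d) {a b : L}
    (ha : a ^ d = 1) (hb : b ^ d = 1) (hne : a ≠ b) : w (a - b) = 1 :=
  hQ _ ((alg_root hd ha).sub (alg_root hd hb)) (sub_ne_zero.2 hne)

lemma exists_lab {d : ℕ} (hd : 0 < d) {v ρ : L}
    (h : w (v ^ d - ρ ^ d) < w ρ ^ d) : ∃ a, a ^ d = 1 ∧ w (v - a * ρ) < w ρ := by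
  classical
  obtain ⟨ζ, hζ⟩ := exists_prim L d hd
  by_contra hcon
  push Not at hcon
  rw [hζ.pow_sub_pow_eq_prod_sub_mul v ρ hd, map_prod] at h
  have h1 : ∏ _z ∈ nthRootsFinset d (1 : L), w ρ ≤ ∏ z ∈ nthRootsFinset d (1 : L), w (v - z * ρ) := by
    refine prod_le_prod (fun _ _ => w.nonneg _) fun z hz => ?_
    exact hcon z ((mem_nthRootsFinset hd (1 : L)).1 hz)
  rw [prod_const, hζ.card_nthRootsFinset] at h1
  linarith

lemma lab_unique (hw : IsNonarchimedean w)
    (hQ : ∀ x : L, IsAlgebraic ℚ x → x ≠ 0 → w x = 1) {d : ℕ} (hd : 0 < d) {v ρ a b : L}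
    (ha : a ^ d = 1) (hb : b ^ d = 1) (h1 : w (v - a * ρ) < w ρ) (h2 : w (v - b * ρ) < w ρ) :
    a = b := by
  by_contra hne
  have h3 := root_w hQ hd hb ha (Ne.symm hne)
  have h4 := wsub_lt hw h1 h2
  have e : v - a * ρ - (v - b * ρ) = (b - a) * ρ := by ring
  rw [e, map_mul, h3, one_mul] at h4
  exact lt_irrefl _ h4

/-- near points, powers -/
lemma near_pow_sub0 (hw : IsNonarchimedean w)
    (hQ : ∀ x : L, IsAlgebraic ℚ x → x ≠ 0 → w x = 1) {d : ℕ} (hd : 0 < d) {u v : L}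
    (h : w (u - v) < w v) :
    w (u ^ d - v ^ d) = w (u - v) * w v ^ (d - 1) := by
  classical
  obtain ⟨ζ, hζ⟩ := exists_prim L d hd
  rw [hζ.pow_sub_pow_eq_prod_sub_mul u v hd, map_prod]
  have h1 : (1 : L) ∈ nthRootsFinset d (1 : L) := by
    rw [mem_nthRootsFinset hd]; exact one_pow d
  rw [← mul_prod_erase _ _ h1, one_mul]
  congr 1
  have h2 : ∀ z ∈ (nthRootsFinset d (1 : L)).erase 1, w (u - z * v) = w v := by
    intro z hz
    obtain ⟨hz1, hz2⟩ := mem_erase.1 hz
    have hz3 := (mem_nthRootsFinset hd (1 : L)).1 hz2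
    have e : u - z * v = (u - v) + (1 - z) * v := by ring
    have h3 : w ((1 - z) * v) = w v := by
      rw [map_mul, root_w hQ hd (one_pow d) hz3 (Ne.symm hz1), one_mul]
    rw [e, wadd hw (by rw [h3]; exact h), h3]
  rw [prod_congr rfl h2, prod_const, card_erase_of_mem h1, hζ.card_nthRootsFinset]

/-- near points -/
lemma near_pow_sub (hw : IsNonarchimedean w)
    (hQ : ∀ x : L, IsAlgebraic ℚ x → x ≠ 0 → w x = 1) {d : ℕ} (hd : 2 ≤ d) {P : L[X]}
    (hP : GoodP w d P) {u v : L} (hv : 1 < w v) (h : w (u - v) < w v) :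
    w (P.eval u - P.eval v) = w (u - v) * w v ^ (d - 1) := by
  rcases eq_or_ne u v with rfl | huv
  · simp
  have hpos : 0 < w (u - v) := w.pos (sub_ne_zero.2 huv)
  have hv0 : 0 < w v := by linarith
  have e : P.eval u - P.eval v = ∑ i ∈ range d, P.coeff i * (u ^ i - v ^ i) +
      P.leadingCoeff * (u ^ d - v ^ d) := by
    rw [eval_split hP.1, eval_split hP.1, mul_sub, ← sub_eq_zero]
    simp_rw [mul_sub]
    rw [sum_sub_distrib]
    ring
  have h1 : w (P.leadingCoeff * (u ^ d - v ^ d)) = w (u - v) * w v ^ (d - 1) := by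
    rw [map_mul, hP.2.1, one_mul, near_pow_sub0 hw hQ (by omega) h]
  have h2 : w (∑ i ∈ range d, P.coeff i * (u ^ i - v ^ i)) ≤ w (u - v) * w v ^ (d - 2) := by
    refine sum_le_of_nonarch w hw _ _ _ (by positivity) fun i hi => ?_
    have hi' := mem_range.1 hi
    rw [map_mul]
    rcases Nat.eq_zero_or_pos i with rfl | hi0
    · simp
      positivity
    · rw [near_pow_sub0 hw hQ hi0 h]
      calc w (P.coeff i) * (w (u - v) * w v ^ (i - 1)) ≤ 1 * (w (u - v) * w v ^ (d - 2)) := by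
            refine mul_le_mul (hP.2.2 i) ?_ (by positivity) zero_le_one
            exact mul_le_mul_of_nonneg_left (pow_le_pow_right₀ hv.le (by omega)) hpos.le
        _ = _ := one_mul _
  rw [e, wadd hw, h1]
  rw [h1]
  refine h2.trans_lt (mul_lt_mul_of_pos_left ?_ hpos)
  exact pow_lt_pow_right₀ hv (by omega)

lemma pow_near (hw : IsNonarchimedean w) {u u' : L} {R : ℝ} (hR : 0 < R) (hu : w u = R)
    (hu' : w u' = R) (h : w (u - u') < R) (j : ℕ) : w (u ^ j - u' ^ j) < R ^ j := by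
  induction j with
  | zero => simp
  | succ j ih =>
    have e : u ^ (j + 1) - u' ^ (j + 1) = u * (u ^ j - u' ^ j) + (u - u') * u' ^ j := by ring
    rw [e]
    refine wadd_lt hw ?_ ?_
    · rw [map_mul, hu, pow_succ, mul_comm]
      exact mul_lt_mul_of_pos_right ih hR
    · rw [map_mul, map_pow, hu', pow_succ, mul_comm (R ^ j)]
      exact mul_lt_mul_of_pos_right h (by positivity)

lemma mono_near (hw : IsNonarchimedean w) {u u' v v' : L} {R : ℝ} (hR : 0 < R) (hu : w u = R)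
    (hu' : w u' = R) (hv : w v = R) (hv' : w v' = R) (h : w (u - u') < R) (h' : w (v - v') < R)
    (j k : ℕ) : w (u ^ j * v ^ k - u' ^ j * v' ^ k) < R ^ (j + k) := by
  have e : u ^ j * v ^ k - u' ^ j * v' ^ k =
      u ^ j * (v ^ k - v' ^ k) + (u ^ j - u' ^ j) * v' ^ k := by ring
  rw [e, pow_add]
  refine wadd_lt hw ?_ ?_
  · rw [map_mul, map_pow, hu]
    exact mul_lt_mul_of_pos_left (pow_near hw hR hv hv' h' k) (by positivity)
  · rw [map_mul, map_pow, hv']
    exact mul_lt_mul_of_pos_right (pow_near hw hR hu hu' h j) (by positivity)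

lemma sum_lt_na (hw : IsNonarchimedean w) {ι : Type*} (s : Finset ι) (g : ι → L) {B : ℝ}
    (hB : 0 < B) (h : ∀ i ∈ s, w (g i) < B) : w (∑ i ∈ s, g i) < B := by
  classical
  induction s using Finset.induction_on with
  | empty => simpa using hB
  | insert a s ha ih =>
    rw [sum_insert ha]
    exact wadd_lt hw (h a (mem_insert_self _ _)) (ih fun i hi => h i (mem_insert_of_mem hi))

/-- comparison of two differences of powers -/
lemma diff_near0 (hw : IsNonarchimedean w) {d : ℕ} (hd : 0 < d) {u u' v v' : L} {R e : ℝ}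
    (hR : 0 < R) (hu : w u = R) (hu' : w u' = R) (hv : w v = R) (hv' : w v' = R)
    (h : w (u - u') < R) (h' : w (v - v') < R) (he : 0 < e)
    (h1 : w ((u - v) - (u' - v')) < e) (h2 : w (u' - v') ≤ e) :
    w ((u ^ d - v ^ d) - (u' ^ d - v' ^ d)) < e * R ^ (d - 1) := by
  have e1 : ∀ x y : L, x ^ d - y ^ d = (∑ i ∈ range d, x ^ i * y ^ (d - 1 - i)) * (x - y) :=
    fun x y => (geom_sum₂_mul x y d).symm
  rw [e1 u v, e1 u' v']
  set Θ := ∑ i ∈ range d, u ^ i * v ^ (d - 1 - i) with hΘ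
  set Θ' := ∑ i ∈ range d, u' ^ i * v' ^ (d - 1 - i) with hΘ'
  have hT : 0 < R ^ (d - 1) := by positivity
  have h3 : w Θ ≤ R ^ (d - 1) := by
    refine sum_le_of_nonarch w hw _ _ _ hT.le fun i hi => ?_
    have hi' := mem_range.1 hi
    rw [map_mul, map_pow, map_pow, hu, hv, ← pow_add]
    apply le_of_eq
    congr 1
    omega
  have h4 : w (Θ - Θ') < R ^ (d - 1) := by
    rw [hΘ, hΘ', ← sum_sub_distrib]
    refine sum_lt_na hw _ _ hT fun i hi => ?_
    have hi' := mem_range.1 hi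
    have := mono_near hw hR hu hu' hv hv' h h' i (d - 1 - i)
    have e2 : i + (d - 1 - i) = d - 1 := by omega
    rwa [e2] at this
  have e3 : Θ * (u - v) - Θ' * (u' - v') = Θ * ((u - v) - (u' - v')) + (Θ - Θ') * (u' - v') := by
    ring
  rw [e3]
  refine wadd_lt hw ?_ ?_
  · rw [map_mul]
    calc w Θ * w ((u - v) - (u' - v')) ≤ R ^ (d - 1) * w ((u - v) - (u' - v')) :=
          mul_le_mul_of_nonneg_right h3 (w.nonneg _)
      _ < R ^ (d - 1) * e := mul_lt_mul_of_pos_left h1 hT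
      _ = e * R ^ (d - 1) := mul_comm _ _
  · rw [map_mul]
    calc w (Θ - Θ') * w (u' - v') ≤ w (Θ - Θ') * e := mul_le_mul_of_nonneg_left h2 (w.nonneg _)
      _ < R ^ (d - 1) * e := mul_lt_mul_of_pos_right h4 he
      _ = e * R ^ (d - 1) := mul_comm _ _

/-- comparison of two differences -/
lemma diff_near (hw : IsNonarchimedean w) {d : ℕ} (hd : 0 < d) {P : L[X]}
    (hP : GoodP w d P) {u u' v v' : L} {R e : ℝ}
    (hR : 1 < R) (hu : w u = R) (hu' : w u' = R) (hv : w v = R) (hv' : w v' = R)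
    (h : w (u - u') < R) (h' : w (v - v') < R) (he : 0 < e)
    (h1 : w ((u - v) - (u' - v')) < e) (h2 : w (u' - v') ≤ e) :
    w ((P.eval u - P.eval v) - (P.eval u' - P.eval v')) < e * R ^ (d - 1) := by
  have hR0 : 0 < R := by linarith
  have e0 : (P.eval u - P.eval v) - (P.eval u' - P.eval v') =
      ∑ i ∈ range d, P.coeff i * ((u ^ i - v ^ i) - (u' ^ i - v' ^ i)) +
      P.leadingCoeff * ((u ^ d - v ^ d) - (u' ^ d - v' ^ d)) := by
    rw [eval_split hP.1, eval_split hP.1, eval_split hP.1, eval_split hP.1]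
    simp_rw [mul_sub]
    rw [sum_sub_distrib, sum_sub_distrib, sum_sub_distrib]
    ring
  rw [e0]
  refine wadd_lt hw ?_ ?_
  · refine sum_lt_na hw _ _ (by positivity) fun i hi => ?_
    have hi' := mem_range.1 hi
    rw [map_mul]
    rcases Nat.eq_zero_or_pos i with rfl | hi0
    · simp
      positivity
    · have h3 := diff_near0 hw hi0 hR0 hu hu' hv hv' h h' he h1 h2
      have h4 : e * R ^ (i - 1) ≤ e * R ^ (d - 1) :=
        mul_le_mul_of_nonneg_left (pow_le_pow_right₀ hR.le (by omega)) he.le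
      calc w (P.coeff i) * w ((u ^ i - v ^ i) - (u' ^ i - v' ^ i)) ≤
            1 * w ((u ^ i - v ^ i) - (u' ^ i - v' ^ i)) :=
            mul_le_mul_of_nonneg_right (hP.2.2 i) (w.nonneg _)
        _ < e * R ^ (d - 1) := by rw [one_mul]; exact h3.trans_le h4
  · rw [map_mul, hP.2.1, one_mul]
    exact diff_near0 hw hd hR0 hu hu' hv hv' h h' he h1 h2

open Classical in
/-- the label -/
noncomputable def lab (w : AbsoluteValue L ℝ) (d : ℕ) (ρ v : L) : L :=
  if h : ∃ a, a ^ d = 1 ∧ w (v - a * ρ) < w ρ then h.choose else 0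

lemma lab_spec {d : ℕ} {ρ v : L} (h : ∃ a, a ^ d = 1 ∧ w (v - a * ρ) < w ρ) :
    lab w d ρ v ^ d = 1 ∧ w (v - lab w d ρ v * ρ) < w ρ := by
  unfold lab
  rw [dif_pos h]
  exact h.choose_spec

/-- points whose image is small have labels -/
lemma exists_lab' (hw : IsNonarchimedean w) {d : ℕ} (hd : 2 ≤ d) {P : L[X]} (hP : GoodP w d P)
    {c v ρ : L} (hρ : P.leadingCoeff * ρ ^ d = -c) (hc : 1 < w c) (hv : w v ≤ w ρ)
    (h : w (P.eval v + c) ≤ w ρ) : ∃ a, a ^ d = 1 ∧ w (v - a * ρ) < w ρ := by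
  have hR := root_gt hP hρ hc
  refine exists_lab (by omega) ?_
  have h1 : w (P.leadingCoeff * (v ^ d - ρ ^ d)) < w ρ ^ d := by
    have e : P.leadingCoeff * (v ^ d - ρ ^ d) =
        (P.eval v + c) - ∑ i ∈ range d, P.coeff i * v ^ i := by
      rw [eval_split hP.1, mul_sub, hρ]
      ring
    rw [e]
    refine wsub_lt hw (h.trans_lt ?_) ((lower_le hw (by omega) hP hR.le hv).trans_lt ?_)
    · have h3 : w ρ ^ 1 < w ρ ^ d := pow_lt_pow_right₀ hR (by omega)
      rwa [pow_one] at h3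
    · exact pow_lt_pow_right₀ hR (by omega)
  rwa [map_mul, hP.2.1, one_mul] at h1

/-- preperiodic points have labels -/
lemma pre_lab (hw : IsNonarchimedean w) {d : ℕ} (hd : 2 ≤ d) {P : L[X]} (hP : GoodP w d P)
    {c x ρ : L} (hρ : P.leadingCoeff * ρ ^ d = -c) (hc : 1 < w c) (h : Pre P c x) :
    lab w d ρ x ^ d = 1 ∧ w (x - lab w d ρ x * ρ) < w ρ := by
  refine lab_spec (exists_lab' hw hd hP hρ hc (pre_abs hw hd hP hρ hc h).le ?_)
  exact (pre_abs hw hd hP hρ hc h.next).le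

end

end Pool.Agent.TH737.CP
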