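import Mathlib

/-!
# Differences of roots of unity, and counting
-/

set_option autoImplicit false

namespace Pool.Agent.TH737.CP

open Finset

lemma root_complex {α β α' β' : ℂ} (h1 : ‖α‖ = 1) (h2 : ‖β‖ = 1) (h3 : ‖α'‖ = 1)
    (h4 : ‖β'‖ = 1) (hne : α ≠ β) (h : α - β = α' - β') : α' = α ∨ α' = -β := by
  have hc : ∀ z : ℂ, ‖z‖ = 1 → z * (starRingEnd ℂ) z = 1 := by
    intro z hz
    rw [Complex.mul_conj, Complex.normSq_eq_norm_sq, hz]
    simp
  have e1 := hc α h1
  have e2 := hc β h2
  have e3 := hc α' h3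
  have e4 := hc β' h4
  have hs : α + β' = α' + β := by linear_combination h
  have hs' : (starRingEnd ℂ) α + (starRingEnd ℂ) β' = (starRingEnd ℂ) α' + (starRingEnd ℂ) β := by
    rw [← map_add, ← map_add, hs]
  by_cases h0 : α' + β = 0
  · right
    linear_combination h0
  · have k1 : (α + β') = (α * β') * ((starRingEnd ℂ) α' + (starRingEnd ℂ) β) := by
      rw [← hs']
      linear_combination (-β') * e1 - α * e4
    have k2 : (α' + β) = (α' * β) * ((starRingEnd ℂ) α' + (starRingEnd ℂ) β) := by
      linear_combination (-β) * e3 - α' * e2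
    have hp : α * β' = α' * β := by
      have h5 : (starRingEnd ℂ) α' + (starRingEnd ℂ) β ≠ 0 := by
        intro h6
        rw [h6, mul_zero] at k2
        exact h0 k2
      have h6 : (α * β') * ((starRingEnd ℂ) α' + (starRingEnd ℂ) β) =
          (α' * β) * ((starRingEnd ℂ) α' + (starRingEnd ℂ) β) := by
        rw [← k1, ← k2, hs]
      exact mul_right_cancel₀ h5 h6
    have h5 : (α' - α) * (α' - β') = 0 := by
      linear_combination (-α') * hs + hp
    rcases mul_eq_zero.1 h5 with h6 | h6
    · left; linear_combination h6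
    · exfalso
      apply hne
      linear_combination h + h6

/-- differences of roots of unity -/
lemma root_sub {L : Type*} [Field L] [CharZero L] (d : ℕ) (hd : d ≠ 0) {a b a' b' : L}
    (h1 : a ^ d = 1) (h2 : b ^ d = 1) (h3 : a' ^ d = 1) (h4 : b' ^ d = 1) (hne : a ≠ b)
    (h : a - b = a' - b') : a' = a ∨ a' = -b := by
  set A := algebraicClosure ℚ L with hA
  haveI : Algebra.IsAlgebraic ℚ A := algebraicClosure.isAlgebraic ℚ L
  have hm : ∀ x : L, x ^ d = 1 → x ∈ A := by
    intro x hx
    rw [hA, mem_algebraicClosure_iff]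
    refine IsIntegral.isAlgebraic ?_
    exact IsIntegral.of_pow (Nat.pos_of_ne_zero hd) (by rw [hx]; exact isIntegral_one)
  let φ : A →ₐ[ℚ] ℂ := IsAlgClosed.lift
  have hinj : Function.Injective φ := φ.toRingHom.injective
  have hn : ∀ (x : L) (hx : x ^ d = 1), ‖φ ⟨x, hm x hx⟩‖ = 1 := by
    intro x hx
    refine Complex.norm_eq_one_of_pow_eq_one (n := d) ?_ hd
    rw [← map_pow]
    have : (⟨x, hm x hx⟩ : A) ^ d = 1 := Subtype.ext hx
    rw [this, map_one]
  have key := root_complex (hn a h1) (hn b h2) (hn a' h3) (hn b' h4)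
    (fun h5 => hne (congrArg Subtype.val (hinj h5)))
    (by
      rw [← map_sub, ← map_sub]
      congr 1
      exact Subtype.ext h)
  rcases key with h5 | h5
  · left
    exact congrArg Subtype.val (hinj h5)
  · right
    rw [← map_neg] at h5
    exact congrArg Subtype.val (hinj h5)

/-- the number of pairs in the same class -/
lemma cs_pairs {α β : Type*} [DecidableEq β] (S : Finset α) (g : α → β) :
    (S.card : ℝ) ^ 2 ≤ (S.image g).card * ∑ x ∈ S, ∑ y ∈ S, (if g x = g y then (1 : ℝ) else 0) := by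
  have e1 : (S.card : ℝ) = ∑ c ∈ S.image g, ((S.filter fun x => g x = c).card : ℝ) := by
    rw [← Nat.cast_sum]
    congr 1
    exact card_eq_sum_card_image g S
  have e2 : ∑ x ∈ S, ∑ y ∈ S, (if g x = g y then (1 : ℝ) else 0) =
      ∑ c ∈ S.image g, ((S.filter fun x => g x = c).card : ℝ) ^ 2 := by
    have h1 : ∀ x, ∑ y ∈ S, (if g x = g y then (1 : ℝ) else 0) =
        ((S.filter fun y => g y = g x).card : ℝ) := by
      intro x
      rw [← sum_filter, sum_const, nsmul_eq_mul, mul_one]
      congr 2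
      ext y
      simp [eq_comm]
    simp_rw [h1]
    rw [← sum_fiberwise_of_maps_to (s := S) (t := S.image g) (g := g)
      (fun x hx => mem_image_of_mem g hx)]
    refine sum_congr rfl fun c _ => ?_
    have h2 : ∀ x ∈ S.filter (fun x => g x = c), ((S.filter fun y => g y = g x).card : ℝ) =
        ((S.filter fun y => g y = c).card : ℝ) := by
      intro x hx
      rw [(mem_filter.1 hx).2]
    rw [sum_congr rfl h2, sum_const, nsmul_eq_mul, sq]
  rw [e1, e2]
  exact sq_sum_le_card_mul_sum_sq

/-- the geometric sums -/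
lemma geom_sum_est (d q : ℕ) (hd : 2 ≤ d) (hq : 1 ≤ q) (hqd : q ≤ d) (n m : ℕ) (hm : 1 ≤ m) :
    1 + (1 / (d : ℝ)) ^ n * (1 / q - 1 / d) - d * (1 / (d : ℝ)) ^ m / q ≤
      ((d : ℝ) - 1) * ∑ j ∈ range m, (if j + 1 ≤ n + 1 then (1 / (d : ℝ)) ^ (j + 1)
        else d * (1 / (d : ℝ)) ^ (j + 1) / q) := by
  have hd0 : (0 : ℝ) < d := by exact_mod_cast (by omega : 0 < d)
  have hq0 : (0 : ℝ) < q := by exact_mod_cast (by omega : 0 < q)
  have hqd' : 1 / (d : ℝ) ≤ 1 / q := one_div_le_one_div_of_le hq0 (by exact_mod_cast hqd)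
  have hd1 : 1 / (d : ℝ) ≤ 1 := by
    rw [div_le_one hd0]; exact_mod_cast (by omega : 1 ≤ d)
  set u : ℝ := 1 / (d : ℝ) with hu
  have hu0 : 0 < u := by rw [hu]; positivity
  have hdu : (d : ℝ) * u = 1 := by rw [hu]; field_simp
  have hgeo : ∀ m, ((d : ℝ) - 1) * ∑ j ∈ range m, u ^ (j + 1) = 1 - u ^ m := by
    intro m
    induction m with
    | zero => simp
    | succ m ih =>
      rw [sum_range_succ, mul_add, ih, pow_succ]
      linear_combination (u ^ m) * hdu
  by_cases hmn : m ≤ n + 1
  · have h1 : ∑ j ∈ range m, (if j + 1 ≤ n + 1 then u ^ (j + 1) else d * u ^ (j + 1) / q) =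
        ∑ j ∈ range m, u ^ (j + 1) := by
      refine sum_congr rfl fun j hj => if_pos ?_
      have := mem_range.1 hj
      omega
    rw [h1, hgeo]
    -- `u^n (1/q - u) ≤ d u^m (1/q - u)`
    have h2 : u ^ n ≤ d * u ^ m := by
      obtain ⟨k, rfl⟩ : ∃ k, m = k + 1 := ⟨m - 1, by omega⟩
      have e : (d : ℝ) * u ^ (k + 1) = u ^ k := by
        rw [pow_succ]; linear_combination (u ^ k) * hdu
      rw [e]
      exact pow_le_pow_of_le_one hu0.le hd1 (by omega)
    have h3 : u ^ n * (1 / q - u) ≤ d * u ^ m * (1 / q - u) :=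
      mul_le_mul_of_nonneg_right h2 (by linarith)
    have h4 : (d : ℝ) * u ^ m * (1 / q - u) = d * u ^ m / q - u ^ m := by
      linear_combination (-u ^ m) * hdu
    linarith
  · push Not at hmn
    have key : ∀ m, n + 1 ≤ m → 1 + u ^ n * (1 / q - u) - d * u ^ m / q ≤
        ((d : ℝ) - 1) * ∑ j ∈ range m, (if j + 1 ≤ n + 1 then u ^ (j + 1)
          else d * u ^ (j + 1) / q) := by
      intro m hm
      induction m, hm using Nat.le_induction with
      | base =>
        have h1 : ∑ j ∈ range (n + 1), (if j + 1 ≤ n + 1 then u ^ (j + 1)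
            else d * u ^ (j + 1) / q) = ∑ j ∈ range (n + 1), u ^ (j + 1) := by
          refine sum_congr rfl fun j hj => if_pos ?_
          have := mem_range.1 hj
          omega
        rw [h1, hgeo]
        have e : (d : ℝ) * u ^ (n + 1) = u ^ n := by
          rw [pow_succ]; linear_combination (u ^ n) * hdu
        rw [e]
        have e2 : u ^ (n + 1) = u ^ n * u := pow_succ u n
        rw [e2]
        apply le_of_eq
        ring
      | succ m hm ih =>
        rw [sum_range_succ, if_neg (by omega), mul_add]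
        have e : ((d : ℝ) - 1) * (d * u ^ (m + 1) / q) = d * u ^ m / q - d * u ^ (m + 1) / q := by
          have e1 : ((d : ℝ) - 1) * (d * u ^ (m + 1) / q) =
              ((d * u) * (d * u ^ m) - d * u ^ (m + 1)) / q := by
            rw [pow_succ]; ring
          rw [e1, hdu]
          ring
        rw [e]
        linarith
    exact key m (by omega)

end Pool.Agent.TH737.CP
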