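import Pool.Agent.TH737.CP.Loc

/-!
# Common preperiodic points: separation of the two orbits
-/

set_option autoImplicit false

namespace Pool.Agent.TH737.CP

open Finset Polynomial Pool.Agent.TH737.FE Pool.Agent.TH737.HEN

variable {L : Type*} [Field L] [CharZero L] [IsAlgClosed L] {w : AbsoluteValue L ℝ}

/-- the difference of the two orbits -/
noncomputable def D (P : L[X]) (c c' : L) (i : ℕ) (x : L) : L := (F P c)^[i] x - (F P c')^[i] x

lemma D_succ (P : L[X]) (c c' : L) (i : ℕ) (x : L) : D P c c' (i + 1) x =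
    (P.eval ((F P c)^[i] x) - P.eval ((F P c')^[i] x)) + (c - c') := by
  unfold D
  rw [Function.iterate_succ_apply', Function.iterate_succ_apply']
  unfold F
  ring

lemma lead_ne {d : ℕ} {P : L[X]} (hP : GoodP w d P) : P.leadingCoeff ≠ 0 := by
  intro h
  have := hP.2.1
  rw [h, map_zero] at this
  exact zero_ne_one this

lemma exists_rho {d : ℕ} (hd : 0 < d) {P : L[X]} (hP : P.leadingCoeff ≠ 0) (c : L) :
    ∃ ρ : L, P.leadingCoeff * ρ ^ d = -c := by
  obtain ⟨ρ, hρ⟩ := IsAlgClosed.exists_pow_nat_eq (-c / P.leadingCoeff) hd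
  refine ⟨ρ, ?_⟩
  rw [hρ]
  field_simp

/-- both iterates have the same absolute value -/
lemma both_abs (hw : IsNonarchimedean w) {d : ℕ} (hd : 2 ≤ d) {P : L[X]} (hP : GoodP w d P)
    {c c' ρ x : L} (hρ : P.leadingCoeff * ρ ^ d = -c)
    (hc : 1 < w c) (h : Pre P c x) (h' : Pre P c' x) :
    (∀ i, w ((F P c)^[i] x) = w ρ) ∧ (∀ i, w ((F P c')^[i] x) = w ρ) := by
  have hx := pre_abs hw hd hP hρ hc h
  have hR := root_gt hP hρ hc
  refine ⟨fun i => pre_abs hw hd hP hρ hc (h.iter i), fun i => ?_⟩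
  obtain ⟨ρ', hρ'⟩ := exists_rho (by omega : 0 < d) (lead_ne hP) c'
  have hc' : 1 < w c' := by
    by_contra hcon
    push Not at hcon
    have := pre_le_one hw hd hP h' hcon
    linarith
  rw [pre_abs hw hd hP hρ' hc' (h'.iter i), ← pre_abs hw hd hP hρ' hc' h', hx]

lemma delta_le (hw : IsNonarchimedean w) {d : ℕ} (hd : 2 ≤ d) {P : L[X]} (hP : GoodP w d P)
    {c c' ρ x : L} (hρ : P.leadingCoeff * ρ ^ d = -c)
    (hc : 1 < w c) (h : Pre P c x) (h' : Pre P c' x) : w (c - c') ≤ w ρ := by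
  obtain ⟨h1, h2⟩ := both_abs hw hd hP hρ hc h h'
  have e : c - c' = (F P c)^[1] x - (F P c')^[1] x := by
    simp only [Function.iterate_one]
    unfold F
    ring
  rw [e]
  exact wsub_le' hw (h1 1).le (h2 1).le

/-- the sizes of the differences -/
lemma D_abs (hw : IsNonarchimedean w)
    (hQ : ∀ x : L, IsAlgebraic ℚ x → x ≠ 0 → w x = 1) {d : ℕ} (hd : 2 ≤ d) {P : L[X]}
    (hP : GoodP w d P) {c c' ρ x : L}
    (hρ : P.leadingCoeff * ρ ^ d = -c) (hc : 1 < w c) (h : Pre P c x) (h' : Pre P c' x)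
    (hne : c ≠ c') (i : ℕ)
    (hi : ∀ j < i, w (c - c') * (w ρ ^ (d - 1)) ^ j < w ρ) :
    w (D P c c' (i + 1) x) = w (c - c') * (w ρ ^ (d - 1)) ^ i := by
  have hR := root_gt hP hρ hc
  obtain ⟨h1, h2⟩ := both_abs hw hd hP hρ hc h h'
  have hδ : 0 < w (c - c') := w.pos (sub_ne_zero.2 hne)
  have hT : 1 < w ρ ^ (d - 1) := one_lt_pow₀ hR (by omega)
  induction i with
  | zero =>
    rw [D_succ]
    simp
  | succ i ih =>
    have h3 := ih fun j hj => hi j (by omega)
    have h4 := hi i (by omega)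
    rw [← h3] at h4
    rw [D_succ, add_comm]
    have h5 : w (P.eval ((F P c)^[i + 1] x) - P.eval ((F P c')^[i + 1] x)) =
        w (D P c c' (i + 1) x) * w ρ ^ (d - 1) := by
      rw [near_pow_sub hw hQ hd hP (by rw [h2]; exact hR) (by rw [h2]; exact h4), h2]
      rfl
    rw [wadd hw, h5, h3, pow_succ, mul_assoc]
    rw [h5, h3]
    calc w (c - c') = w (c - c') * 1 * 1 := by ring
      _ < w (c - c') * (w ρ ^ (d - 1)) ^ i * w ρ ^ (d - 1) := by
        apply mul_lt_mul' _ hT zero_le_one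
        · exact mul_pos hδ (by positivity)
        · exact mul_le_mul_of_nonneg_left (one_le_pow₀ hT.le) hδ.le

/-- the time of separation -/
lemma exists_sep (hw : IsNonarchimedean w)
    (hQ : ∀ x : L, IsAlgebraic ℚ x → x ≠ 0 → w x = 1) {d : ℕ} (hd : 2 ≤ d) {P : L[X]}
    (hP : GoodP w d P) {c c' ρ x : L}
    (hρ : P.leadingCoeff * ρ ^ d = -c) (hc : 1 < w c) (h : Pre P c x) (h' : Pre P c' x)
    (hne : c ≠ c') :
    ∃ n, w (c - c') * (w ρ ^ (d - 1)) ^ n = w ρ ∧
      ∀ j < n, w (c - c') * (w ρ ^ (d - 1)) ^ j < w ρ := by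
  classical
  have hR := root_gt hP hρ hc
  have hδ : 0 < w (c - c') := w.pos (sub_ne_zero.2 hne)
  have hT : 1 < w ρ ^ (d - 1) := one_lt_pow₀ hR (by omega)
  have hex : ∃ n, ¬ w (c - c') * (w ρ ^ (d - 1)) ^ n < w ρ := by
    obtain ⟨n, hn⟩ := pow_unbounded_of_one_lt (w ρ / w (c - c')) hT
    refine ⟨n, ?_⟩
    rw [div_lt_iff₀ hδ] at hn
    rw [not_lt, mul_comm]
    exact hn.le
  refine ⟨Nat.find hex, ?_, fun j hj => not_not.1 (Nat.find_min hex hj)⟩
  have h1 := not_lt.1 (Nat.find_spec hex)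
  refine le_antisymm ?_ h1
  rw [← D_abs hw hQ hd hP hρ hc h h' hne _ fun j hj => not_not.1 (Nat.find_min hex hj)]
  obtain ⟨h2, h3⟩ := both_abs hw hd hP hρ hc h h'
  exact wsub_le' hw (h2 _).le (h3 _).le

/-- points with the same labels are separated in the same way -/
lemma D_near (hw : IsNonarchimedean w)
    (hQ : ∀ x : L, IsAlgebraic ℚ x → x ≠ 0 → w x = 1) {d : ℕ} (hd : 2 ≤ d) {P : L[X]}
    (hP : GoodP w d P) {c c' ρ x y : L}
    (hρ : P.leadingCoeff * ρ ^ d = -c) (hc : 1 < w c) (h : Pre P c x) (h' : Pre P c' x)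
    (hy : Pre P c y) (hy' : Pre P c' y) (hne : c ≠ c') (i : ℕ)
    (hi : ∀ j < i, w (c - c') * (w ρ ^ (d - 1)) ^ j < w ρ)
    (hlab : ∀ j ≤ i, lab w d ρ ((F P c)^[j] x) = lab w d ρ ((F P c)^[j] y)) :
    w (D P c c' (i + 1) x - D P c c' (i + 1) y) < w (c - c') * (w ρ ^ (d - 1)) ^ i := by
  have hR := root_gt hP hρ hc
  have hR0 : 0 < w ρ := by linarith
  obtain ⟨h1, h2⟩ := both_abs hw hd hP hρ hc h h'
  obtain ⟨h1', h2'⟩ := both_abs hw hd hP hρ hc hy hy'
  have hδ : 0 < w (c - c') := w.pos (sub_ne_zero.2 hne)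
  have hT : 1 < w ρ ^ (d - 1) := one_lt_pow₀ hR (by omega)
  induction i with
  | zero =>
    rw [D_succ, D_succ]
    simpa using hδ
  | succ i ih =>
    have h3 := ih (fun j hj => hi j (by omega)) (fun j hj => hlab j (by omega))
    have h4 := D_abs hw hQ hd hP hρ hc h h' hne i (fun j hj => hi j (by omega))
    have h5 := D_abs hw hQ hd hP hρ hc hy hy' hne i (fun j hj => hi j (by omega))
    have h6 := hi i (by omega)
    rw [D_succ P c c' (i + 1) x, D_succ P c c' (i + 1) y, add_sub_add_right_eq_sub, pow_succ,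
      ← mul_assoc]
    set u := (F P c)^[i + 1] x with hu
    set v := (F P c')^[i + 1] x with hv
    set u' := (F P c)^[i + 1] y with hu'
    set v' := (F P c')^[i + 1] y with hv'
    have k1 : w (u - u') < w ρ := by
      have l1 := (pre_lab hw hd hP hρ hc (h.iter (i + 1))).2
      have l2 := (pre_lab hw hd hP hρ hc (hy.iter (i + 1))).2
      rw [← hlab (i + 1) le_rfl] at l2
      have := wsub_lt hw l1 l2
      rwa [sub_sub_sub_cancel_right] at this
    have k2 : w (u - v) < w ρ := by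
      have : u - v = D P c c' (i + 1) x := rfl
      rw [this, h4]; exact h6
    have k3 : w (u' - v') < w ρ := by
      have : u' - v' = D P c c' (i + 1) y := rfl
      rw [this, h5]; exact h6
    have k4 : w (v - v') < w ρ := by
      have e : v - v' = ((u - u') - (u - v)) + (u' - v') := by ring
      rw [e]
      exact wadd_lt hw (wsub_lt hw k1 k2) k3
    refine diff_near hw (by omega) hP hR (h1 _) (h1' _) (h2 _) (h2' _) k1 k4 ?_ h3 (le_of_eq h5)
    positivity

/-- **The separation constraint.** -/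
theorem sep_root (hw : IsNonarchimedean w)
    (hQ : ∀ x : L, IsAlgebraic ℚ x → x ≠ 0 → w x = 1) {d : ℕ} (hd : 2 ≤ d) {P : L[X]}
    (hP : GoodP w d P) {c c' ρ x y : L}
    (hρ : P.leadingCoeff * ρ ^ d = -c) (hc : 1 < w c) (h : Pre P c x) (h' : Pre P c' x)
    (hy : Pre P c y) (hy' : Pre P c' y) (hne : c ≠ c') (n : ℕ)
    (hn : w (c - c') * (w ρ ^ (d - 1)) ^ n = w ρ)
    (hi : ∀ j < n, w (c - c') * (w ρ ^ (d - 1)) ^ j < w ρ)
    (hlab : ∀ j ≤ n, lab w d ρ ((F P c)^[j] x) = lab w d ρ ((F P c)^[j] y)) :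
    ∃ b b' : L, b ^ d = 1 ∧ b' ^ d = 1 ∧ lab w d ρ ((F P c)^[n + 1] x) ≠ b ∧
      lab w d ρ ((F P c)^[n + 1] x) - b = lab w d ρ ((F P c)^[n + 1] y) - b' ∧
      w ((F P c')^[n + 1] x - b * ρ) < w ρ := by
  have hR := root_gt hP hρ hc
  have hR0 : 0 < w ρ := by linarith
  obtain ⟨h1, h2⟩ := both_abs hw hd hP hρ hc h h'
  obtain ⟨h1', h2'⟩ := both_abs hw hd hP hρ hc hy hy'
  have hδ := delta_le hw hd hP hρ hc h h'
  have hb : ∀ z : L, (∀ i, w ((F P c')^[i] z) = w ρ) →
      ∃ b, b ^ d = 1 ∧ w ((F P c')^[n + 1] z - b * ρ) < w ρ := by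
    intro z hz2
    refine exists_lab' hw hd hP hρ hc (hz2 _).le ?_
    have e : P.eval ((F P c')^[n + 1] z) + c = (F P c')^[n + 1 + 1] z + (c - c') := by
      rw [Function.iterate_succ_apply' (F P c') (n + 1)]
      unfold F
      ring
    rw [e]
    exact (hw _ _).trans (max_le (hz2 _).le hδ)
  obtain ⟨b, hb1, hb2⟩ := hb x h2
  obtain ⟨b', hb1', hb2'⟩ := hb y h2'
  obtain ⟨a1, a2⟩ := pre_lab hw hd hP hρ hc (h.iter (n + 1))
  obtain ⟨a1', a2'⟩ := pre_lab hw hd hP hρ hc (hy.iter (n + 1))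
  set a := lab w d ρ ((F P c)^[n + 1] x) with ha
  set a' := lab w d ρ ((F P c)^[n + 1] y) with ha'
  have hDx := D_abs hw hQ hd hP hρ hc h h' hne n hi
  have hDn := D_near hw hQ hd hP hρ hc h h' hy hy' hne n hi hlab
  rw [hn] at hDx hDn
  have k1 : w (D P c c' (n + 1) x - (a - b) * ρ) < w ρ := by
    have e : D P c c' (n + 1) x - (a - b) * ρ =
        ((F P c)^[n + 1] x - a * ρ) - ((F P c')^[n + 1] x - b * ρ) := by
      unfold D; ring
    rw [e]
    exact wsub_lt hw a2 hb2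
  have k2 : w (D P c c' (n + 1) y - (a' - b') * ρ) < w ρ := by
    have e : D P c c' (n + 1) y - (a' - b') * ρ =
        ((F P c)^[n + 1] y - a' * ρ) - ((F P c')^[n + 1] y - b' * ρ) := by
      unfold D; ring
    rw [e]
    exact wsub_lt hw a2' hb2'
  refine ⟨b, b', hb1, hb1', ?_, ?_, hb2⟩
  · intro hab
    rw [hab, sub_self, zero_mul, sub_zero, hDx] at k1
    exact lt_irrefl _ k1
  · by_contra hcon
    have h3 : w (((a - b) - (a' - b')) * ρ) < w ρ := by
      have e : ((a - b) - (a' - b')) * ρ = (D P c c' (n + 1) x - D P c c' (n + 1) y) -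
          (D P c c' (n + 1) x - (a - b) * ρ) + (D P c c' (n + 1) y - (a' - b') * ρ) := by ring
      rw [e]
      exact wadd_lt hw (wsub_lt hw hDn k1) k2
    have h4 : w ((a - b) - (a' - b')) = 1 := by
      refine hQ _ ?_ (sub_ne_zero.2 hcon)
      have hd0 : 0 < d := by omega
      exact ((alg_root hd0 a1).sub (alg_root hd0 hb1)).sub
        ((alg_root hd0 a1').sub (alg_root hd0 hb1'))
    rw [map_mul, h4, one_mul] at h3
    exact lt_irrefl _ h3

end Pool.Agent.TH737.CP
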